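import Mathlib

/-!
# Powers of two modulo integers with bounded odd prime factors
-/

set_option autoImplicit false

namespace Pool.Agent.Helper243Abel

/-- `x = 2 ^ (y!)`. -/
def xx (y : ℕ) : ℕ := 2 ^ y.factorial

theorem one_lt_xx (y : ℕ) : 1 < xx y := by
  unfold xx
  exact Nat.one_lt_two_pow (Nat.factorial_ne_zero y)

theorem dvd_xx_sub {y p : ℕ} (hp : p.Prime) (hp2 : p ≠ 2) (hpy : p ≤ y) : p ∣ xx y - 1 := by
  have : Fact p.Prime := ⟨hp⟩
  have h1 : (p - 1) ∣ y.factorial := Nat.dvd_factorial (by have := hp.two_le; omega) (by omega)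
  obtain ⟨k, hk⟩ := h1
  have h2 : ((2 : ZMod p)) ≠ 0 := by
    intro h
    have : (p : ℕ) ∣ 2 := (ZMod.natCast_eq_zero_iff 2 p).1 (by exact_mod_cast h)
    exact hp2 ((Nat.prime_dvd_prime_iff_eq hp Nat.prime_two).1 this)
  have h3 : ((2 : ZMod p)) ^ y.factorial = 1 := by
    rw [hk, pow_mul, ZMod.pow_card_sub_one_eq_one h2, one_pow]
  rw [← ZMod.natCast_eq_zero_iff, Nat.cast_sub (one_lt_xx y).le]
  unfold xx
  push_cast
  rw [h3, sub_self]

theorem dvd_of_dvd {y n : ℕ} (hn : n ≠ 0) (hodd : Odd n) (hy : ∀ p, p.Prime → p ∣ n → p ≤ y)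
    {k : ℕ} (hk : n ∣ xx y ^ k - 1) : n ∣ (xx y - 1) * k := by
  rcases Nat.eq_zero_or_pos k with rfl | hkpos
  · simp
  have hx := one_lt_xx y
  have hx1 : xx y - 1 ≠ 0 := by omega
  have hxk : xx y ^ k - 1 ≠ 0 := by
    have := Nat.one_lt_pow hkpos.ne' hx
    omega
  rw [← Nat.factorization_le_iff_dvd hn (mul_ne_zero hx1 hkpos.ne')]
  intro p
  by_cases hp : p.Prime
  · by_cases hpn : p ∣ n
    · have hp2 : p ≠ 2 := by
        rintro rfl
        exact (Nat.not_even_iff_odd.2 hodd) (even_iff_two_dvd.2 hpn)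
      have : Fact p.Prime := ⟨hp⟩
      have hpx := dvd_xx_sub hp hp2 (hy p hp hpn)
      have hpx' : ¬ p ∣ xx y := by
        intro h
        have h1 : p ∣ xx y - (xx y - 1) := Nat.dvd_sub h hpx
        rw [Nat.sub_sub_self hx.le] at h1
        exact hp.one_lt.ne' (Nat.dvd_one.1 h1)
      have h1 := padicValNat.pow_sub_pow (hp1 := hp.odd_of_ne_two hp2) (x := xx y) (y := 1) hx hpx
        hpx' hkpos.ne'
      rw [one_pow] at h1
      have h2 := (Nat.factorization_le_iff_dvd hn hxk).2 hk p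
      rw [Nat.factorization_def _ hp, Nat.factorization_def _ hp] at h2
      rw [Nat.factorization_def _ hp, Nat.factorization_def _ hp, padicValNat.mul hx1 hkpos.ne']
      omega
    · rw [Nat.factorization_eq_zero_of_not_dvd hpn]
      exact Nat.zero_le _
  · rw [Nat.factorization_eq_zero_of_not_prime _ hp]
    exact Nat.zero_le _

/-- The powers of two modulo `n` contain all residues `1 + g j`, `g = gcd(n, x - 1)`. -/
theorem powers {y n : ℕ} (hn : n ≠ 0) (hodd : Odd n) (hy : ∀ p, p.Prime → p ∣ n → p ≤ y) (j : ℕ) :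
    ∃ t : ℕ, xx y ^ t ≡ 1 + Nat.gcd n (xx y - 1) * j [MOD n] := by
  set g := Nat.gcd n (xx y - 1) with hg
  have hx := one_lt_xx y
  have hgpos : 0 < g := Nat.gcd_pos_of_pos_left _ (Nat.pos_of_ne_zero hn)
  obtain ⟨K, hK⟩ : g ∣ n := Nat.gcd_dvd_left _ _
  obtain ⟨z, hz⟩ : g ∣ xx y - 1 := Nat.gcd_dvd_right _ _
  have hKpos : 0 < K := Nat.pos_of_ne_zero (by rintro rfl; rw [mul_zero] at hK; exact hn hK)
  have hcop : Nat.Coprime K z := by
    have h1 := Nat.coprime_div_gcd_div_gcd (m := n) (n := xx y - 1) hgpos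
    rw [← hg] at h1
    rw [hz] at h1
    conv at h1 => enter [1, 1]; rw [hK]
    rw [Nat.mul_div_cancel_left _ hgpos, Nat.mul_div_cancel_left _ hgpos] at h1
    exact h1
  -- `g` divides `x ^ t - 1`
  have hdiv : ∀ t : ℕ, g ∣ xx y ^ t - 1 := by
    intro t
    have h1 : xx y - 1 ∣ xx y ^ t - 1 := by
      have := Nat.sub_dvd_pow_sub_pow (xx y) 1 t
      rwa [one_pow] at this
    exact (Nat.gcd_dvd_right _ _).trans h1
  choose q hq using hdiv
  -- the exponents below `K` give different quotients modulo `K`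
  have hinj : ∀ t t' : ℕ, t ≤ t' → q t ≡ q t' [MOD K] → K ∣ t' - t := by
    intro t t' htt h
    have h1 : n ∣ xx y ^ t' - xx y ^ t := by
      have h2 : K ∣ q t' - q t ∨ True := Or.inr trivial
      have h3 : (K : ℤ) ∣ (q t' : ℤ) - q t := (Nat.modEq_iff_dvd).1 h
      have h4 : (n : ℤ) ∣ ((xx y ^ t' : ℕ) : ℤ) - ((xx y ^ t : ℕ) : ℤ) := by
        obtain ⟨u, hu⟩ := h3
        refine ⟨u, ?_⟩
        have e1 : ((xx y ^ t' : ℕ) : ℤ) = 1 + g * q t' := by
          have := hq t'
          have h5 : 1 ≤ xx y ^ t' := Nat.one_le_pow _ _ (by omega)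
          have : xx y ^ t' = 1 + g * q t' := by omega
          exact_mod_cast this
        have e2 : ((xx y ^ t : ℕ) : ℤ) = 1 + g * q t := by
          have := hq t
          have h5 : 1 ≤ xx y ^ t := Nat.one_le_pow _ _ (by omega)
          have : xx y ^ t = 1 + g * q t := by omega
          exact_mod_cast this
        rw [e1, e2, hK]
        push_cast
        linear_combination (g : ℤ) * hu
      have h5 : xx y ^ t ≤ xx y ^ t' := Nat.pow_le_pow_right (by omega) htt
      rw [← Nat.cast_sub h5] at h4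
      exact_mod_cast h4
    have h2 : n ∣ xx y ^ (t' - t) - 1 := by
      have h3 : xx y ^ t' - xx y ^ t = xx y ^ t * (xx y ^ (t' - t) - 1) := by
        rw [Nat.mul_sub, ← pow_add, Nat.add_sub_cancel' htt, mul_one]
      rw [h3] at h1
      have h4 : Nat.Coprime n (xx y ^ t) := by
        apply Nat.Coprime.pow_right
        unfold xx
        apply Nat.Coprime.pow_right
        exact hodd.coprime_two_right
      exact h4.dvd_of_dvd_mul_left h1
    have h3 := dvd_of_dvd hn hodd hy h2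
    rw [hz, mul_assoc] at h3
    have h4 : g * K ∣ g * (z * (t' - t)) := by rw [← hK]; exact h3
    exact hcop.dvd_of_dvd_mul_left (Nat.dvd_of_mul_dvd_mul_left hgpos h4)
  have : NeZero K := ⟨hKpos.ne'⟩
  have hinj' : Function.Injective fun t : Fin K => ((q t : ℕ) : ZMod K) := by
    intro t t' h
    have h1 : q t ≡ q t' [MOD K] := (ZMod.natCast_eq_natCast_iff _ _ _).1 h
    apply Fin.ext
    rcases le_total (t : ℕ) t' with h2 | h2
    · have h3 := hinj t t' h2 h1
      have h4 := Nat.eq_zero_of_dvd_of_lt h3 (by omega)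
      omega
    · have h3 := hinj t' t h2 h1.symm
      have h4 := Nat.eq_zero_of_dvd_of_lt h3 (by omega)
      omega
  have hbij : Function.Bijective fun t : Fin K => ((q t : ℕ) : ZMod K) := by
    rw [Fintype.bijective_iff_injective_and_card]
    exact ⟨hinj', by rw [Fintype.card_fin, ZMod.card]⟩
  obtain ⟨t, ht⟩ := hbij.2 (j : ZMod K)
  have h1 : q t ≡ j [MOD K] := (ZMod.natCast_eq_natCast_iff _ _ _).1 ht
  refine ⟨t, ?_⟩
  have h5 : 1 ≤ xx y ^ (t : ℕ) := Nat.one_le_pow _ _ (by omega)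
  have h6 : xx y ^ (t : ℕ) = 1 + g * q t := by
    have := hq t
    omega
  rw [h6]
  apply Nat.ModEq.add_left
  have h7 : g * q t ≡ g * j [MOD (g * K)] := Nat.ModEq.mul_left' g h1
  rwa [← hK] at h7

theorem xx_pow (y t : ℕ) : xx y ^ t = 2 ^ (y.factorial * t) := by
  unfold xx
  rw [pow_mul]

attribute [irreducible] xx

theorem pow_eq_of_modEq {D : Type} [Group D] (x : D) {a b : ℕ} (h : a ≡ b [MOD orderOf x]) :
    x ^ a = x ^ b := pow_eq_pow_iff_modEq.2 h

theorem pow_eq_one_of_dvd {D : Type} [Group D] (x : D) {a : ℕ} (h : orderOf x ∣ a) :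
    x ^ a = 1 := orderOf_dvd_iff_pow_eq_one.1 h

theorem orderOf_pow_of_dvd {D : Type} [Group D] [Finite D] (x : D) {g K : ℕ} (hg : 0 < g)
    (h : orderOf x = g * K) : orderOf (x ^ g) = K := by
  rw [orderOf_pow, h, Nat.gcd_eq_right (Dvd.intro _ rfl), Nat.mul_div_cancel_left _ hg]

end Pool.Agent.Helper243Abel
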