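import Pool.Agent.Helper243_Abel.Split
import Pool.Agent.Helper243_Abel.Powers

/-!
# Abelian codes
-/

set_option autoImplicit false

namespace Pool.Agent.Helper243Abel

open Finset Module

/-- The algebraic closure of the field with two elements. -/
abbrev K2 : Type := AlgebraicClosure (ZMod 2)

theorem natCast_ne_zero_of_odd {F : Type} [Field F] [Algebra (ZMod 2) F] {n : ℕ} (hn : Odd n) :
    (n : F) ≠ 0 := by
  have hchar : CharP F 2 := charP_of_injective_algebraMap (algebraMap (ZMod 2) F).injective 2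
  intro h
  rw [CharP.cast_eq_zero_iff F 2] at h
  exact (Nat.not_even_iff_odd.2 hn) (even_iff_two_dvd.2 h)

theorem odd_exponent {A : Type} [CommGroup A] [Fintype A] {m : ℕ} (hm : Odd m) :
    Odd (Monoid.exponent (ker A m)) := by
  have h1 : Monoid.exponent (ker A m) ∣ m := by
    apply Monoid.exponent_dvd_of_forall_pow_eq_one
    intro g
    apply Subtype.ext
    have := mem_ker.1 g.2
    simpa using this
  exact hm.of_dvd_nat h1

instance enough {A : Type} [CommGroup A] [Fintype A] {m : ℕ} [hm : Fact (Odd m)] :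
    HasEnoughRootsOfUnity K2 (Monoid.exponent (ker A m)) := by
  have : NeZero ((Monoid.exponent (ker A m) : ℕ) : ZMod 2) :=
    ⟨natCast_ne_zero_of_odd (odd_exponent hm.out)⟩
  exact AlgebraicClosure.hasEnoughRootsOfUnity (ZMod 2) _

section

variable {A : Type} [CommGroup A] [Fintype A]

/-- The characters that occur in a code with many words. -/
theorem many_characters {s m : ℕ} [hm : Fact (Odd m)] (hA : Fintype.card A = 2 ^ s * m)
    [Fintype (ker A m)]
    {C : Submodule (ZMod 2) (A → ZMod 2)} (hC : Invariant A C) {ρ : ℝ}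
    (hdim : ρ * Fintype.card A ≤ finrank (ZMod 2) C)
    [DecidablePred fun χ : ker A m →* K2ˣ => Occurs s m (ext K2 C) χ] :
    ρ * (Fintype.card (ker A m) : ℝ) ≤
      ((Finset.univ.filter fun χ : ker A m →* K2ˣ => Occurs s m (ext K2 C) χ).card : ℝ) := by
  classical
  have : Fintype (ker A (2 ^ s)) := Fintype.ofFinite _
  have hWA : Inv A (ext K2 C) := fun g h hh => ext_invariant hC g hh
  have hWG : Inv (ker A m) (ext K2 C) := fun g h hh => hWA (g : A) h hh
  have h1 := finrank_le_card (G := ker A m) (X := A) (F := K2) (R := ker A (2 ^ s))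
    (r := fun u => (u : A)) (fun x => by
      obtain ⟨g, u, h⟩ := split_surj (A := A) hm.out hA x
      exact ⟨g, u, h⟩) (natCast_ne_zero_of_odd (odd_card hm.out)) hWG
    (Finset.univ.filter fun χ : ker A m →* K2ˣ => Occurs s m (ext K2 C) χ)
    (fun χ hχ => by
      rw [Finset.mem_filter]
      exact ⟨Finset.mem_univ _, occurs_of_eigen hm.out hA hWA hχ⟩)
  have h2 := finrank_le (F := K2) C
  have h3 := card_split (A := A) (s := s) hm.out
  set S := Finset.univ.filter fun χ : ker A m →* K2ˣ => Occurs s m (ext K2 C) χ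
  have hP : 0 < (Fintype.card (ker A (2 ^ s)) : ℝ) := by exact_mod_cast Fintype.card_pos
  have h4 : (finrank (ZMod 2) C : ℝ) ≤ S.card * Fintype.card (ker A (2 ^ s)) := by
    exact_mod_cast h2.trans h1
  rcases le_or_gt ρ 0 with hρ | hρ
  · have : ρ * (Fintype.card (ker A m) : ℝ) ≤ 0 :=
      mul_nonpos_of_nonpos_of_nonneg hρ (by positivity)
    exact this.trans (by positivity)
  · have h5 : (Fintype.card (ker A m) : ℝ) * Fintype.card (ker A (2 ^ s)) ≤ Fintype.card A := by
      exact_mod_cast h3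
    have h6 : ρ * (Fintype.card (ker A m) : ℝ) * Fintype.card (ker A (2 ^ s)) ≤
        S.card * Fintype.card (ker A (2 ^ s)) := by
      calc ρ * (Fintype.card (ker A m) : ℝ) * Fintype.card (ker A (2 ^ s))
          = ρ * ((Fintype.card (ker A m) : ℝ) * Fintype.card (ker A (2 ^ s))) := by ring
        _ ≤ ρ * Fintype.card A := mul_le_mul_of_nonneg_left h5 hρ.le
        _ ≤ _ := hdim.trans h4
    exact le_of_mul_le_mul_right h6 hP

/-- The torsion of the group of characters. -/
theorem card_tors_dual {m : ℕ} [hm : Fact (Odd m)] (p : ℕ)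
    [DecidablePred fun χ : ker A m →* K2ˣ => χ ∈ (⊤ : Subgroup (ker A m →* K2ˣ)) ∧ χ ^ p = 1]
    [Fintype (ker A m)] :
    (Finset.univ.filter fun χ : ker A m →* K2ˣ =>
      χ ∈ (⊤ : Subgroup (ker A m →* K2ˣ)) ∧ χ ^ p = 1).card =
      Nat.card {g : ker A m // g ^ p = 1} := by
  obtain ⟨e⟩ := CommGroup.monoidHom_mulEquiv_of_hasEnoughRootsOfUnity (ker A m) K2
  rw [← Nat.subtype_card (p := fun χ : ker A m →* K2ˣ => χ ^ p = 1) _ fun χ => by simp]
  refine Nat.card_congr (e.toEquiv.subtypeEquiv fun χ => ?_)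
  show χ ^ p = 1 ↔ (e χ) ^ p = 1
  rw [← map_pow, MulEquiv.map_eq_one_iff]

theorem card_tors {s m : ℕ} (hm : Odd m) (hA : Fintype.card A = 2 ^ s * m) {p : ℕ}
    (hp : p.Prime) (hp2 : p ≠ 2) :
    Nat.card {g : ker A m // g ^ p = 1} = Nat.card {a : A // a ^ p = 1} := by
  refine Nat.card_congr
    { toFun := fun g => ⟨(g.1 : A), by
        have := congrArg (fun x : ker A m => (x : A)) g.2
        simpa using this⟩
      invFun := fun a => ⟨⟨a.1, ?_⟩, ?_⟩
      left_inv := fun g => rfl
      right_inv := fun a => rfl }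
  · rw [mem_ker]
    have h1 : (a.1 ^ m) ^ (2 ^ s) = 1 := by
      rw [← pow_mul, mul_comm, ← hA]
      exact pow_card_eq_one
    have h2 : (a.1 ^ m) ^ p = 1 := by
      rw [← pow_mul, mul_comm, pow_mul, a.2, one_pow]
    have h3 := orderOf_dvd_of_pow_eq_one h1
    have h4 := orderOf_dvd_of_pow_eq_one h2
    have hcop : Nat.Coprime (2 ^ s) p :=
      Nat.Coprime.pow_left _ ((Nat.coprime_primes Nat.prime_two hp).2 hp2.symm)
    exact orderOf_eq_one_iff.1 (Nat.eq_one_of_dvd_coprimes hcop h3 h4)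
  · apply Subtype.ext
    exact a.2

end

/-- Words of small weight in an abelian code over a group with many elements of odd prime order. -/
theorem torsion_bound (A : Type) [CommGroup A] [Fintype A] (p d : ℕ) (hp : p.Prime) (hp2 : p ≠ 2)
    (ρ : ℝ) (hρ : 0 < ρ)
    (hbig : (p : ℝ) ^ d * (2 / ρ) ^ (2 ^ d) ≤ (Nat.card {a : A // a ^ p = 1} : ℝ))
    (C : Submodule (ZMod 2) (A → ZMod 2)) (hC : Invariant A C)
    (hdim : ρ * Fintype.card A ≤ finrank (ZMod 2) C) :
    ∃ f ∈ C, f ≠ 0 ∧ (hammingNorm f : ℝ) ≤ (1 - 1 / (p : ℝ)) ^ d * Fintype.card A := by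
  classical
  obtain ⟨s, m, hm, hA⟩ := Nat.exists_eq_two_pow_mul_odd (Fintype.card_ne_zero (α := A))
  have : Fact (Odd m) := ⟨hm⟩
  have : Fintype (ker A m) := Fintype.ofFinite _
  have hS := many_characters hA hC hdim
  have hcard := card_tors_dual (A := A) (m := m) p
  rw [card_tors hm hA hp hp2] at hcard
  rw [← hcard] at hbig
  obtain ⟨h, hhW, h0, hsupp⟩ := core (G := ker A m) (X := A) (F := K2) (R := ker A (2 ^ s))
    (r := fun u => (u : A)) (fun x => by
      obtain ⟨g, u, h⟩ := split_surj (A := A) hm hA x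
      exact ⟨g, u, h⟩) (ext K2 C) (fun _ => 1) 1 one_ne_zero ⊤
    (Finset.univ.filter fun χ : ker A m →* K2ˣ => Occurs s m (ext K2 C) χ)
    (fun _ _ => Subgroup.mem_top _)
    (fun χ hχ => by
      obtain ⟨h, hh, h1⟩ := (Finset.mem_filter.1 hχ).2
      exact ⟨h, hh, fun j g => by rw [h1, mul_one]⟩) hp hρ
    (by
      refine le_trans (le_of_eq ?_) hS
      congr 2
      rw [← card_dual (G := ker A m) (F := K2), ← Finset.card_univ]
      congr 1
      ext χ
      simp) d hbig
  refine finish hhW h0 ?_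
  intro _
  have h1 : ((Finset.univ.filter fun x => h x ≠ 0).card : ℝ) * (p : ℝ) ^ d ≤
      ((p : ℝ) - 1) ^ d * Fintype.card A := by
    have h2 := hsupp
    have h3 : (((Finset.univ.filter fun x => h x ≠ 0).card * p ^ d : ℕ) : ℝ) ≤
        (((p - 1) ^ d * Fintype.card A : ℕ) : ℝ) := by exact_mod_cast h2
    push_cast [Nat.cast_sub hp.one_lt.le] at h3
    exact h3
  have hp0 : (0 : ℝ) < p := by exact_mod_cast hp.pos
  have h2 : (1 - 1 / (p : ℝ)) ^ d = ((p : ℝ) - 1) ^ d / (p : ℝ) ^ d := by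
    rw [← div_pow]
    congr 1
    field_simp
  rw [h2, div_mul_eq_mul_div, le_div_iff₀ (by positivity)]
  exact h1

end Pool.Agent.Helper243Abel
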