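import Mathlib

/-!
# Extension of scalars for binary codes and the projections onto the eigenspaces of a group

`ext F C` is the span over a field `F` of characteristic two of a binary linear code `C`.
-/

set_option autoImplicit false

namespace Pool.Agent.Helper243Abel

open Finset Module

/-- The code `C` is invariant under the action of the group `G` on the coordinates. -/
def Invariant (G : Type) {X : Type} [Group G] [MulAction G X]
    (C : Submodule (ZMod 2) (X → ZMod 2)) : Prop :=
  ∀ g : G, ∀ f ∈ C, (fun x => f (g • x)) ∈ C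

section ext

variable (F : Type) [Field F] [Algebra (ZMod 2) F] {X : Type}

/-- The word `f` with entries in the larger field. -/
def up (f : X → ZMod 2) : X → F := fun x => algebraMap (ZMod 2) F (f x)

/-- The span of `C` over the larger field. -/
def ext (C : Submodule (ZMod 2) (X → ZMod 2)) : Submodule F (X → F) :=
  Submodule.span F (Set.range fun f : C => up F (f : X → ZMod 2))

variable {F}

theorem functional_mem {C : Submodule (ZMod 2) (X → ZMod 2)} (l : F →ₗ[ZMod 2] ZMod 2)
    {h : X → F} (hh : h ∈ ext F C) : (fun x => l (h x)) ∈ C := by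
  have key : ∀ c : F, ∀ f ∈ C, (fun x => l (c * up F f x)) ∈ C := by
    intro c f hf
    have : (fun x => l (c * up F f x)) = l c • f := by
      funext x
      have : c * up F f x = f x • c := by
        rw [Algebra.smul_def, mul_comm]; rfl
      rw [this, map_smul, Pi.smul_apply, smul_eq_mul, smul_eq_mul, mul_comm]
    rw [this]
    exact C.smul_mem _ hf
  unfold ext at hh
  refine Submodule.span_induction (p := fun h _ => ∀ c : F, (fun x => l (c * h x)) ∈ C)
    ?_ ?_ ?_ ?_ hh 1 |> fun h => by simpa using h
  · rintro _ ⟨f, rfl⟩ c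
    exact key c f f.2
  · intro c
    have : (fun x : X => l (c * (0 : X → F) x)) = 0 := by funext x; simp
    rw [this]
    exact C.zero_mem
  · intro a b _ _ ha hb c
    have : (fun x => l (c * (a + b) x)) = (fun x => l (c * a x)) + fun x => l (c * b x) := by
      funext x; simp [mul_add]
    rw [this]
    exact C.add_mem (ha c) (hb c)
  · intro a b _ hb c
    have : (fun x => l (c * (a • b) x)) = fun x => l (c * a * b x) := by
      funext x; simp [mul_assoc]
    rw [this]
    exact hb _

/-- A nonzero element of `ext F C` yields a nonzero word of `C` whose support is not larger. -/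
theorem descend {C : Submodule (ZMod 2) (X → ZMod 2)} {h : X → F} (hh : h ∈ ext F C)
    (h0 : h ≠ 0) : ∃ f ∈ C, f ≠ 0 ∧ ∀ x, f x ≠ 0 → h x ≠ 0 := by
  obtain ⟨x0, hx0⟩ : ∃ x, h x ≠ 0 := by
    by_contra hcon
    push Not at hcon
    exact h0 (funext hcon)
  obtain ⟨l, hl⟩ : ∃ l : F →ₗ[ZMod 2] ZMod 2, l (h x0) ≠ 0 := by
    by_contra hcon
    push Not at hcon
    exact hx0 ((Module.forall_dual_apply_eq_zero_iff (ZMod 2) (h x0)).1 hcon)
  refine ⟨fun x => l (h x), functional_mem l hh, fun h => hl (congrFun h x0), fun x hx h1 => ?_⟩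
  apply hx
  show l (h x) = 0
  rw [h1, map_zero]

theorem up_mem {C : Submodule (ZMod 2) (X → ZMod 2)} {f : X → ZMod 2} (hf : f ∈ C) :
    up F f ∈ ext F C := Submodule.subset_span ⟨⟨f, hf⟩, rfl⟩

theorem finrank_le [Finite X] (C : Submodule (ZMod 2) (X → ZMod 2)) :
    finrank (ZMod 2) C ≤ finrank F (ext F C) := by
  classical
  have : Fintype X := Fintype.ofFinite X
  let b := Module.finBasis (ZMod 2) C
  have hli : LinearIndependent F (fun i => (⟨up F (b i : X → ZMod 2), up_mem (b i).2⟩ : ext F C)) := by
    rw [Fintype.linearIndependent_iff]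
    intro c hc i
    by_contra hci
    obtain ⟨l, hl⟩ : ∃ l : F →ₗ[ZMod 2] ZMod 2, l (c i) ≠ 0 := by
      by_contra hcon
      push Not at hcon
      exact hci ((Module.forall_dual_apply_eq_zero_iff (ZMod 2) (c i)).1 hcon)
    have h1 : ∑ j, l (c j) • b j = 0 := by
      apply Subtype.ext
      funext x
      have h2 := congrArg (fun v : ext F C => l ((v : X → F) x)) hc
      simp only [AddSubmonoidClass.coe_finsetSum, SetLike.val_smul, Finset.sum_apply,
        Pi.smul_apply, smul_eq_mul, map_sum, ZeroMemClass.coe_zero, Pi.zero_apply, map_zero] at h2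
      simp only [AddSubmonoidClass.coe_finsetSum, SetLike.val_smul, Finset.sum_apply,
        Pi.smul_apply, smul_eq_mul, ZeroMemClass.coe_zero, Pi.zero_apply]
      rw [← h2]
      refine Finset.sum_congr rfl fun j _ => ?_
      have : c j * up F (b j : X → ZMod 2) x = (b j : X → ZMod 2) x • c j := by
        rw [Algebra.smul_def, mul_comm]; rfl
      rw [this, map_smul, smul_eq_mul, mul_comm]
    exact hl ((Fintype.linearIndependent_iff.1 b.linearIndependent) _ h1 i)
  have := hli.fintype_card_le_finrank
  simpa using this

theorem ext_invariant {G : Type} [Group G] [MulAction G X]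
    {C : Submodule (ZMod 2) (X → ZMod 2)} (hC : Invariant G C) (g : G) {h : X → F}
    (hh : h ∈ ext F C) : (fun x => h (g • x)) ∈ ext F C := by
  unfold ext at hh
  refine Submodule.span_induction (p := fun h _ => (fun x => h (g • x)) ∈ ext F C)
    ?_ ?_ ?_ ?_ hh
  · rintro _ ⟨f, rfl⟩
    exact up_mem (F := F) (hC g f f.2)
  · exact (ext F C).zero_mem
  · intro a b _ _ ha hb
    exact (ext F C).add_mem ha hb
  · intro a b _ hb
    exact (ext F C).smul_mem a hb

/-- The Frobenius map. -/
theorem ext_sq {C : Submodule (ZMod 2) (X → ZMod 2)} {h : X → F} (hh : h ∈ ext F C) :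
    (fun x => h x ^ 2) ∈ ext F C := by
  have hchar : CharP F 2 := charP_of_injective_algebraMap (algebraMap (ZMod 2) F).injective 2
  unfold ext at hh
  refine Submodule.span_induction (p := fun h _ => (fun x => h x ^ 2) ∈ ext F C)
    ?_ ?_ ?_ ?_ hh
  · rintro _ ⟨f, rfl⟩
    have : (fun x => up F (f : X → ZMod 2) x ^ 2) = up F (f : X → ZMod 2) := by
      funext x
      unfold up
      rw [← map_pow]
      congr 1
      generalize (f : X → ZMod 2) x = z
      revert z
      decide
    show (fun x => up F (f : X → ZMod 2) x ^ 2) ∈ _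
    rw [this]
    exact up_mem f.2
  · have : (fun x : X => (0 : X → F) x ^ 2) = 0 := by funext x; simp
    rw [this]
    exact (ext F C).zero_mem
  · intro a b _ _ ha hb
    have : (fun x : X => (a + b) x ^ 2) = (fun x => a x ^ 2) + fun x => b x ^ 2 := by
      funext x
      simp only [Pi.add_apply]
      exact add_pow_char (a x) (b x) 2
    rw [this]
    exact (ext F C).add_mem ha hb
  · intro a b _ hb
    have : (fun x : X => (a • b) x ^ 2) = a ^ 2 • (fun x => b x ^ 2) := by
      funext x
      simp [mul_pow]
    rw [this]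
    exact (ext F C).smul_mem _ hb

end ext

end Pool.Agent.Helper243Abel
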