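import Pool.Agent.Helper243_Abel.Window

/-!
# From a dense set of characters to a word of small weight
-/

set_option autoImplicit false

namespace Pool.Agent.Helper243Abel

open Finset Module

/-- Pigeonhole for cosets. -/
theorem coset {D : Type} [CommGroup D] [Fintype D] [DecidableEq D] (D' E : Subgroup D)
    [DecidablePred (· ∈ D')] [DecidablePred (· ∈ E)] (hED : E ≤ D') (S : Finset D)
    (hS : ∀ χ ∈ S, χ ∈ D') {c : ℝ}
    (hc : c * ((Finset.univ.filter fun χ : D => χ ∈ D').card : ℝ) ≤ S.card) :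
    ∃ T ⊆ S, (∀ χ ∈ T, ∀ χ' ∈ T, χ⁻¹ * χ' ∈ E) ∧
      c * ((Finset.univ.filter fun χ : D => χ ∈ E).card : ℝ) ≤ T.card := by
  set Df := Finset.univ.filter fun χ : D => χ ∈ D' with hDf
  set Ef := Finset.univ.filter fun χ : D => χ ∈ E with hEf
  have hsum : S.card * Ef.card ≤ ∑ a ∈ Df, (S.filter fun χ => a⁻¹ * χ ∈ E).card := by
    have h1 : ∑ a ∈ Df, (S.filter fun χ => a⁻¹ * χ ∈ E).card =
        ∑ χ ∈ S, (Df.filter fun a => a⁻¹ * χ ∈ E).card := by
      simp only [Finset.card_filter]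
      rw [Finset.sum_comm]
    rw [h1, ← smul_eq_mul, ← Finset.sum_const]
    refine Finset.sum_le_sum fun χ hχ => ?_
    rw [← Finset.card_image_of_injective Ef
      (f := fun e => χ * e⁻¹) (fun a b h => inv_injective (mul_left_cancel h))]
    apply Finset.card_le_card
    intro a ha
    obtain ⟨e, he, rfl⟩ := Finset.mem_image.1 ha
    rw [hEf, Finset.mem_filter] at he
    rw [Finset.mem_filter, hDf, Finset.mem_filter]
    refine ⟨⟨Finset.mem_univ _, D'.mul_mem (hS χ hχ) (D'.inv_mem (hED he.2))⟩, ?_⟩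
    have : (χ * e⁻¹)⁻¹ * χ = e := by
      rw [mul_inv, inv_inv, mul_comm χ⁻¹ e, mul_assoc, inv_mul_cancel, mul_one]
    rw [this]
    exact he.2
  have hne : Df.Nonempty := ⟨1, by rw [hDf, Finset.mem_filter]; exact ⟨Finset.mem_univ _, D'.one_mem⟩⟩
  obtain ⟨a, -, ha⟩ := Finset.exists_le_of_sum_le (s := Df)
    (f := fun _ => c * (Ef.card : ℝ)) (g := fun a => ((S.filter fun χ => a⁻¹ * χ ∈ E).card : ℝ))
    hne (by
      rw [Finset.sum_const, nsmul_eq_mul]
      have h1 : ((S.card * Ef.card : ℕ) : ℝ) ≤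
          ((∑ a ∈ Df, (S.filter fun χ => a⁻¹ * χ ∈ E).card : ℕ) : ℝ) := by exact_mod_cast hsum
      push_cast at h1
      refine le_trans ?_ h1
      calc (Df.card : ℝ) * (c * Ef.card) = (c * Df.card) * Ef.card := by ring
        _ ≤ S.card * Ef.card := mul_le_mul_of_nonneg_right hc (by positivity))
  refine ⟨_, Finset.filter_subset _ _, ?_, ha⟩
  intro χ hχ χ' hχ'
  have h1 := (Finset.mem_filter.1 hχ).2
  have h2 := (Finset.mem_filter.1 hχ').2
  have : χ⁻¹ * χ' = (a⁻¹ * χ)⁻¹ * (a⁻¹ * χ') := by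
    rw [mul_inv, inv_inv]
    calc χ⁻¹ * χ' = (a * a⁻¹) * (χ⁻¹ * χ') := by rw [mul_inv_cancel, one_mul]
      _ = _ := by
        rw [mul_comm a χ⁻¹]
        simp only [mul_assoc, mul_left_comm]
  rw [this]
  exact E.mul_mem (E.inv_mem h1) h2

/-- The support of a function on `X` and the supports of its restrictions to the orbits. -/
theorem weight {G X R F : Type} [Group G] [Fintype G] [MulAction G X] [Fintype X] [Field F]
    {r : R → X} (hr : ∀ x, ∃ (g : G) (j : R), g • r j = x) (h : X → F) (N : Finset G)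
    [DecidablePred fun x => h x ≠ 0] (hN : ∀ j g, h (g • r j) ≠ 0 → g ∈ N) :
    (Finset.univ.filter fun x => h x ≠ 0).card * Fintype.card G ≤ Fintype.card X * N.card := by
  classical
  have h1 : (Finset.univ.filter fun x => h x ≠ 0).card * Fintype.card G =
      ∑ x : X, (Finset.univ.filter fun g : G => h (g • x) ≠ 0).card := by
    simp only [Finset.card_filter]
    rw [Finset.sum_comm]
    have : ∀ g : G, ∑ x : X, (if h (g • x) ≠ 0 then 1 else 0) =
        ∑ x : X, if h x ≠ 0 then 1 else 0 := fun g =>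
      Equiv.sum_comp (MulAction.toPerm g) fun x => if h x ≠ 0 then 1 else 0
    simp only [this, Finset.sum_const, smul_eq_mul, Finset.card_univ]
    ring
  rw [h1]
  have h2 : ∀ x : X, (Finset.univ.filter fun g : G => h (g • x) ≠ 0).card ≤ N.card := by
    intro x
    obtain ⟨g0, j, rfl⟩ := hr x
    rw [← Finset.card_image_of_injective _ (mul_left_injective g0)]
    apply Finset.card_le_card
    intro g hg
    obtain ⟨g', hg', rfl⟩ := Finset.mem_image.1 hg
    rw [Finset.mem_filter] at hg'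
    apply hN j
    rw [mul_smul]
    exact hg'.2
  refine (Finset.sum_le_sum fun x _ => h2 x).trans ?_
  rw [Finset.sum_const, smul_eq_mul, Finset.card_univ]

/-- The core statement. -/
theorem core {G X R F : Type} [CommGroup G] [Fintype G] [Field F] [Algebra (ZMod 2) F]
    [HasEnoughRootsOfUnity F (Monoid.exponent G)] [MulAction G X] [Fintype X]
    {r : R → X} (hr : ∀ x, ∃ (g : G) (j : R), g • r j = x)
    (W : Submodule F (X → F)) (t : R → F) (j0 : R) (ht : t j0 ≠ 0)
    (D' : Subgroup (G →* Fˣ)) (S : Finset (G →* Fˣ)) (hS : ∀ χ ∈ S, χ ∈ D')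
    (hSW : ∀ χ ∈ S, ∃ h ∈ W, ∀ j g, h (g • r j) = ((χ g : Fˣ) : F) * t j)
    [DecidablePred fun χ : G →* Fˣ => χ ∈ D'] {p : ℕ} (hp : p.Prime)
    [DecidablePred fun χ : G →* Fˣ => χ ∈ D' ∧ χ ^ p = 1] {c : ℝ} (hc0 : 0 < c)
    (hc : c * ((Finset.univ.filter fun χ : G →* Fˣ => χ ∈ D').card : ℝ) ≤ S.card) (d : ℕ)
    (hbig : (p : ℝ) ^ d * (2 / c) ^ (2 ^ d) ≤
      ((Finset.univ.filter fun χ : G →* Fˣ => χ ∈ D' ∧ χ ^ p = 1).card : ℝ)) :
    ∃ h ∈ W, h ≠ 0 ∧ ∀ [DecidablePred fun x => h x ≠ 0],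
      (Finset.univ.filter fun x => h x ≠ 0).card * p ^ d ≤ (p - 1) ^ d * Fintype.card X := by
  classical
  have hDpos : 0 < ((Finset.univ.filter fun χ : G →* Fˣ => χ ∈ D').card : ℝ) := by
    have : 0 < (Finset.univ.filter fun χ : G →* Fˣ => χ ∈ D').card :=
      Finset.card_pos.2 ⟨1, by simp [D'.one_mem]⟩
    exact_mod_cast this
  have hc1 : c ≤ 1 := by
    have h1 : (S.card : ℝ) ≤ (Finset.univ.filter fun χ : G →* Fˣ => χ ∈ D').card := by
      exact_mod_cast Finset.card_le_card fun χ hχ => by simp [hS χ hχ]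
    by_contra hcon
    push Not at hcon
    nlinarith
  let E : Subgroup (G →* Fˣ) := D' ⊓ (powMonoidHom p).ker
  have hEmem : ∀ χ : G →* Fˣ, χ ∈ E ↔ χ ∈ D' ∧ χ ^ p = 1 := fun χ => by
    rw [Subgroup.mem_inf, MonoidHom.mem_ker]
    rfl
  obtain ⟨T, hTS, hTE, hcT⟩ := coset D' E inf_le_left S hS hc
  have hEeq : (Finset.univ.filter fun χ : G →* Fˣ => χ ∈ E) =
      Finset.univ.filter fun χ : G →* Fˣ => χ ∈ D' ∧ χ ^ p = 1 := by
    ext χ
    simp only [Finset.mem_filter, Finset.mem_univ, true_and]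
    exact hEmem χ
  rw [← hEeq] at hbig
  obtain ⟨h, hhW, N', hN', hcard, h1, h2⟩ := window W r hp
    (Finset.univ.filter fun χ : G →* Fˣ => χ ∈ E)
    (fun ψ hψ => ((hEmem ψ).1 (Finset.mem_filter.1 hψ).2).2) j0 d 1 c T ⊤ Finset.univ
    (fun j _ => t j) hc0 hc1
    (fun χ hχ χ' hχ' => by
      rw [Finset.mem_filter]
      exact ⟨Finset.mem_univ _, hTE χ hχ χ' hχ'⟩) hcT (by rw [Subgroup.index_top])
    (by rw [Nat.cast_one, one_mul]; exact hbig) ⟨1, Finset.mem_univ _⟩
    (fun _ _ _ _ => Finset.mem_univ _) (fun _ _ _ => Finset.mem_univ _) (fun _ _ => ht)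
    (fun χ hχ => hSW χ (hTS hχ))
  obtain ⟨g, hg⟩ := hN'
  refine ⟨h, hhW, fun h0 => h2 g hg (by rw [h0]; rfl), ?_⟩
  intro _
  have h3 := weight hr h N' h1
  have hGpos : 0 < Fintype.card G := Fintype.card_pos
  rw [Finset.card_univ] at hcard
  refine Nat.le_of_mul_le_mul_right (c := Fintype.card G) ?_ hGpos
  calc (Finset.univ.filter fun x => h x ≠ 0).card * p ^ d * Fintype.card G
      = ((Finset.univ.filter fun x => h x ≠ 0).card * Fintype.card G) * p ^ d := by ring
    _ ≤ (Fintype.card X * N'.card) * p ^ d := Nat.mul_le_mul_right _ h3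
    _ = Fintype.card X * (N'.card * p ^ d) := by ring
    _ ≤ Fintype.card X * ((p - 1) ^ d * Fintype.card G) := Nat.mul_le_mul_left _ hcard
    _ = (p - 1) ^ d * Fintype.card X * Fintype.card G := by ring

/-- From a function with values in the larger field to a word of the code. -/
theorem finish {X F : Type} [Fintype X] [Field F] [Algebra (ZMod 2) F]
    {C : Submodule (ZMod 2) (X → ZMod 2)} {h : X → F} (hh : h ∈ ext F C) (h0 : h ≠ 0) {b : ℝ}
    (hb : ∀ [DecidablePred fun x => h x ≠ 0],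
      ((Finset.univ.filter fun x => h x ≠ 0).card : ℝ) ≤ b) :
    ∃ f ∈ C, f ≠ 0 ∧ (hammingNorm f : ℝ) ≤ b := by
  classical
  obtain ⟨f, hf, hf0, hsupp⟩ := descend hh h0
  refine ⟨f, hf, hf0, le_trans ?_ hb⟩
  have : hammingNorm f ≤ (Finset.univ.filter fun x => h x ≠ 0).card := by
    unfold hammingNorm
    apply Finset.card_le_card
    intro x hx
    rw [Finset.mem_filter] at hx ⊢
    exact ⟨Finset.mem_univ _, hsupp x hx.2⟩
  exact_mod_cast this

/-! ### Torsion -/

theorem tors_mul {D : Type} [CommGroup D] [Fintype D] [DecidableEq D] (D' : Subgroup D)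
    [DecidablePred (· ∈ D')] (a b : ℕ) :
    (Finset.univ.filter fun x : D => x ∈ D' ∧ x ^ (a * b) = 1).card ≤
      (Finset.univ.filter fun x : D => x ∈ D' ∧ x ^ a = 1).card *
        (Finset.univ.filter fun x : D => x ∈ D' ∧ x ^ b = 1).card := by
  refine (Finset.card_le_mul_card_image (f := fun x : D => x ^ a) _
    (Finset.univ.filter fun x : D => x ∈ D' ∧ x ^ a = 1).card ?_).trans
    (Nat.mul_le_mul_left _ (Finset.card_le_card ?_))
  · intro y hy
    obtain ⟨x0, hx0, rfl⟩ := Finset.mem_image.1 hy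
    have hx0' := (Finset.mem_filter.1 hx0).2
    rw [← Finset.card_image_of_injective _ (mul_right_injective x0⁻¹)]
    apply Finset.card_le_card
    intro z hz
    obtain ⟨x, hx, rfl⟩ := Finset.mem_image.1 hz
    rw [Finset.mem_filter, Finset.mem_filter] at hx
    rw [Finset.mem_filter]
    refine ⟨Finset.mem_univ _, D'.mul_mem (D'.inv_mem hx0'.1) hx.1.2.1, ?_⟩
    have h1 : x ^ a = x0 ^ a := hx.2
    rw [mul_pow, h1, inv_pow, inv_mul_cancel]
  · intro y hy
    obtain ⟨x, hx, rfl⟩ := Finset.mem_image.1 hy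
    have hx' := (Finset.mem_filter.1 hx).2
    rw [Finset.mem_filter]
    exact ⟨Finset.mem_univ _, D'.pow_mem hx'.1 a, by rw [← pow_mul]; exact hx'.2⟩

theorem tors_le {D : Type} [CommGroup D] [Fintype D] [DecidableEq D] (D' : Subgroup D)
    [DecidablePred (· ∈ D')] {M : ℕ} (hM : 1 ≤ M) (L : ℕ) :
    L ≠ 0 → (∀ p, p.Prime → p ∣ L →
      (Finset.univ.filter fun x : D => x ∈ D' ∧ x ^ p = 1).card ≤ M) →
    (Finset.univ.filter fun x : D => x ∈ D' ∧ x ^ L = 1).card ≤ M ^ L := by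
  induction L using induction_on_primes with
  | zero => intro h; exact absurd rfl h
  | one =>
    intro _ _
    have : (Finset.univ.filter fun x : D => x ∈ D' ∧ x ^ 1 = 1) ⊆ {1} := by
      intro x hx
      rw [Finset.mem_filter, pow_one] at hx
      rw [Finset.mem_singleton]
      exact hx.2.2
    refine (Finset.card_le_card this).trans ?_
    rw [Finset.card_singleton, pow_one]
    exact hM
  | prime_mul p a hp ih =>
    intro h0 hpM
    have ha : a ≠ 0 := right_ne_zero_of_mul h0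
    refine (tors_mul D' p a).trans ?_
    refine (Nat.mul_le_mul (hpM p hp (Dvd.intro _ rfl))
      (ih ha fun q hq hqa => hpM q hq (hqa.mul_left p))).trans ?_
    rw [← pow_succ']
    apply Nat.pow_le_pow_right hM
    have := hp.two_le
    have : 1 ≤ a := Nat.one_le_iff_ne_zero.2 ha
    nlinarith

end Pool.Agent.Helper243Abel
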