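import Pool.Agent.Helper243_Abel.Abelian

/-!
# Codes invariant under an abelian group of bounded odd exponent with few orbits
-/

set_option autoImplicit false

namespace Pool.Agent.Helper243Abel

open Finset Module

/-- A finite field of characteristic two with enough roots of unity. -/
abbrev Fe (e : ℕ) : Type := GaloisField 2 e.totient

theorem enoughFe {e : ℕ} (he : Odd e) : HasEnoughRootsOfUnity (Fe e) e := by
  classical
  have he0 : e ≠ 0 := by rintro rfl; exact absurd he (by decide)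
  have : NeZero e := ⟨he0⟩
  have htot : e.totient ≠ 0 := (Nat.totient_pos.2 (Nat.pos_of_ne_zero he0)).ne'
  have : Fintype (Fe e) := Fintype.ofFinite _
  have hcard : Nat.card (Fe e) = 2 ^ e.totient := GaloisField.card 2 _ htot
  obtain ⟨g, hg⟩ := IsCyclic.exists_generator (α := (Fe e)ˣ)
  have hord : orderOf g = 2 ^ e.totient - 1 := by
    rw [orderOf_eq_card_of_forall_mem_zpowers hg, Nat.card_units, hcard]
  have hdvd : e ∣ 2 ^ e.totient - 1 := by
    have h1 : 2 ^ e.totient ≡ 1 [MOD e] := Nat.ModEq.pow_totient he.coprime_two_left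
    exact (Nat.modEq_iff_dvd' Nat.one_le_two_pow).1 h1.symm
  obtain ⟨k, hk⟩ := hdvd
  have hpos : 0 < 2 ^ e.totient - 1 := by
    have : 1 < 2 ^ e.totient := Nat.one_lt_two_pow htot
    omega
  refine ⟨⟨((g ^ k : (Fe e)ˣ) : Fe e), ?_⟩, inferInstance⟩
  rw [IsPrimitiveRoot.coe_units_iff]
  have h1 : IsPrimitiveRoot g (2 ^ e.totient - 1) := by
    rw [← hord]
    exact IsPrimitiveRoot.orderOf g
  exact h1.pow hpos (by rw [hk, mul_comm])

/-- Codes with few orbits. -/
theorem orbits (e ℓ : ℕ) (he : Odd e) (ρ δ : ℝ) (hρ : 0 < ρ) (hδ : 0 < δ) :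
    ∃ n₀ : ℕ, ∀ (G X : Type) [CommGroup G] [Finite G] [Fintype X] [MulAction G X],
      (∀ g : G, g ^ e = 1) → Nat.card (MulAction.orbitRel.Quotient G X) ≤ ℓ →
      n₀ ≤ Fintype.card X →
      ∀ C : Submodule (ZMod 2) (X → ZMod 2), Invariant G C →
        ρ * Fintype.card X ≤ finrank (ZMod 2) C →
        ∃ f ∈ C, f ≠ 0 ∧ (hammingNorm f : ℝ) ≤ δ * Fintype.card X := by
  classical
  have he0 : e ≠ 0 := by rintro rfl; exact absurd he (by decide)
  have : NeZero e := ⟨he0⟩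
  have henough := enoughFe he
  have : Fintype (Fe e) := Fintype.ofFinite _
  set q := Fintype.card (Fe e) with hq
  have hq1 : 1 ≤ q := Fintype.card_pos
  -- the density
  set c : ℝ := ρ / ((ℓ + 1) * (q : ℝ) ^ ℓ) with hc
  have hcpos : 0 < c := by
    have : (0 : ℝ) < q := by exact_mod_cast hq1
    positivity
  obtain ⟨d, hd⟩ : ∃ d : ℕ, (1 - 1 / ((e : ℝ) + 2)) ^ d < δ := by
    apply exists_pow_lt_of_lt_one hδ
    have : (0 : ℝ) < 1 / ((e : ℝ) + 2) := by positivity
    linarith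
  obtain ⟨M, hM1, hM⟩ : ∃ M : ℕ, 1 ≤ M ∧ ((e : ℝ) + 2) ^ d * (2 / c) ^ (2 ^ d) ≤ M := by
    obtain ⟨M, hM⟩ := exists_nat_ge (((e : ℝ) + 2) ^ d * (2 / c) ^ (2 ^ d))
    exact ⟨M + 1, by omega, hM.trans (by push_cast; linarith)⟩
  obtain ⟨n₀, hn₀⟩ := exists_nat_gt (((M ^ e : ℕ) : ℝ) / c)
  refine ⟨n₀, ?_⟩
  intro G X _ _ _ _ hexp horb hX C hC hdim
  have : Fintype G := Fintype.ofFinite G
  have hexpdvd : Monoid.exponent G ∣ e := Monoid.exponent_dvd_of_forall_pow_eq_one hexp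
  have henoughG : HasEnoughRootsOfUnity (Fe e) (Monoid.exponent G) :=
    HasEnoughRootsOfUnity.of_dvd (Fe e) hexpdvd
  have hGodd : Odd (Fintype.card G) := by
    rw [← Nat.not_even_iff_odd]
    intro h
    obtain ⟨g, hg⟩ := exists_prime_orderOf_dvd_card (G := G) 2 (even_iff_two_dvd.1 h)
    have h2 := orderOf_dvd_of_pow_eq_one (hexp g)
    rw [hg] at h2
    exact (Nat.not_even_iff_odd.2 he) (even_iff_two_dvd.2 h2)
  set Ω := MulAction.orbitRel.Quotient G X with hΩ
  have : Fintype Ω := Fintype.ofFinite _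
  rw [Nat.card_eq_fintype_card] at horb
  let r : Ω → X := fun ω => Quotient.out ω
  have hr : ∀ x, ∃ (g : G) (j : Ω), g • r j = x := by
    intro x
    have h1 : MulAction.orbitRel G X x (r (Quotient.mk _ x)) :=
      (MulAction.orbitRel G X).symm (Quotient.mk_out x)
    rw [MulAction.orbitRel_apply] at h1
    obtain ⟨g, hg⟩ := h1
    exact ⟨g, Quotient.mk _ x, hg⟩
  set W := ext (Fe e) C with hW
  have hWinv : Inv G W := fun g h hh => ext_invariant hC g hh
  set S : Finset (G →* (Fe e)ˣ) := Finset.univ.filter fun χ =>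
    ∃ h ∈ W, h ≠ 0 ∧ ∀ (g : G) (x : X), h (g • x) = ((χ g : (Fe e)ˣ) : Fe e) * h x with hS
  have h1 : finrank (Fe e) W ≤ S.card * Fintype.card Ω :=
    finrank_le_card hr (natCast_ne_zero_of_odd hGodd) hWinv S fun χ hχ => by
      rw [hS, Finset.mem_filter]
      exact ⟨Finset.mem_univ _, hχ⟩
  have h2 := finrank_le (F := Fe e) C
  have hchoose : ∀ χ : G →* (Fe e)ˣ, ∃ h : X → Fe e, χ ∈ S →
      h ∈ W ∧ h ≠ 0 ∧ ∀ (g : G) (x : X), h (g • x) = ((χ g : (Fe e)ˣ) : Fe e) * h x := by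
    intro χ
    by_cases hχ : χ ∈ S
    · obtain ⟨h, hh⟩ := (Finset.mem_filter.1 hχ).2
      exact ⟨h, fun _ => hh⟩
    · exact ⟨0, fun h => absurd h hχ⟩
  choose h hh using hchoose
  -- the types
  let ty : (G →* (Fe e)ˣ) → (Ω → Fe e) := fun χ j => h χ (r j)
  obtain ⟨t, -, ht⟩ := Finset.exists_le_card_fiber_of_nsmul_le_card_of_maps_to
    (s := S) (t := (Finset.univ : Finset (Ω → Fe e))) (f := ty) (b := (S.card : ℝ) / q ^ Fintype.card Ω)
    (fun _ _ => Finset.mem_univ _) ⟨0, Finset.mem_univ _⟩ (by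
      rw [Finset.card_univ, Fintype.card_fun, nsmul_eq_mul]
      have : (0 : ℝ) < q := by exact_mod_cast hq1
      push_cast
      rw [← hq]
      field_simp
      exact le_refl _)
  set St := S.filter fun χ => ty χ = t with hSt
  have hXpos : (0 : ℝ) < Fintype.card X := by
    by_contra hcon
    push Not at hcon
    have h3 : (Fintype.card X : ℝ) = 0 := le_antisymm hcon (by positivity)
    have h4 : (n₀ : ℝ) ≤ Fintype.card X := by exact_mod_cast hX
    have h5 : (0 : ℝ) ≤ ((M ^ e : ℕ) : ℝ) / c := by positivity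
    linarith
  have hq0 : (0 : ℝ) < q := by exact_mod_cast hq1
  have hq1' : (1 : ℝ) ≤ q := by exact_mod_cast hq1
  have hStcard : c * Fintype.card X ≤ (St.card : ℝ) := by
    refine le_trans ?_ ht
    have h3 : (finrank (ZMod 2) C : ℝ) ≤ S.card * Fintype.card Ω := by exact_mod_cast h2.trans h1
    have h4 : (Fintype.card Ω : ℝ) ≤ ℓ + 1 := by
      have : (Fintype.card Ω : ℝ) ≤ ℓ := by exact_mod_cast horb
      linarith
    have h5 : ρ * Fintype.card X ≤ S.card * (ℓ + 1) :=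
      hdim.trans (h3.trans (mul_le_mul_of_nonneg_left h4 (by positivity)))
    have h6 : (q : ℝ) ^ Fintype.card Ω ≤ (q : ℝ) ^ ℓ := pow_le_pow_right₀ hq1' horb
    rw [hc, div_mul_eq_mul_div, div_le_div_iff₀ (by positivity) (by positivity)]
    calc ρ * (Fintype.card X : ℝ) * (q : ℝ) ^ Fintype.card Ω
        ≤ (S.card * (ℓ + 1)) * (q : ℝ) ^ ℓ := mul_le_mul h5 h6 (by positivity) (by positivity)
      _ = S.card * ((ℓ + 1) * (q : ℝ) ^ ℓ) := by ring
  have hStpos : 0 < St.card := by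
    have : 0 < (St.card : ℝ) := lt_of_lt_of_le (by positivity) hStcard
    exact_mod_cast this
  obtain ⟨χ₀, hχ₀⟩ := Finset.card_pos.1 hStpos
  -- an orbit on which the type does not vanish
  obtain ⟨j0, hj0⟩ : ∃ j0, t j0 ≠ 0 := by
    by_contra hcon
    push Not at hcon
    have h3 := Finset.mem_filter.1 hχ₀
    obtain ⟨-, h4, h5⟩ := hh χ₀ h3.1
    apply h4
    funext x
    obtain ⟨g, j, rfl⟩ := hr x
    rw [h5, show h χ₀ (r j) = t j from congrFun h3.2 j, hcon, mul_zero]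
    rfl
  set D' : Subgroup (G →* (Fe e)ˣ) :=
    { carrier := {χ | ∀ b ∈ MulAction.stabilizer G (r j0), χ b = 1}
      mul_mem' := by
        intro a b ha hb x hx
        rw [MonoidHom.mul_apply, ha x hx, hb x hx, one_mul]
      one_mem' := by
        intro x _
        rfl
      inv_mem' := by
        intro a ha x hx
        rw [MonoidHom.inv_apply, ha x hx, inv_one] } with hD'
  have hD'mem : ∀ χ, χ ∈ D' ↔ ∀ b ∈ MulAction.stabilizer G (r j0), χ b = 1 := fun χ => Iff.rfl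
  have hStD' : ∀ χ ∈ St, χ ∈ D' := by
    intro χ hχ b hb
    have h3 := Finset.mem_filter.1 hχ
    obtain ⟨-, -, h5⟩ := hh χ h3.1
    have h6 := h5 b (r j0)
    rw [MulAction.mem_stabilizer_iff.1 hb, show h χ (r j0) = t j0 from congrFun h3.2 j0] at h6
    have h7 : (((χ b : (Fe e)ˣ) : Fe e) - 1) * t j0 = 0 := by
      rw [sub_mul, one_mul, ← h6, sub_self]
    rcases mul_eq_zero.1 h7 with h8 | h8
    · exact Units.ext (sub_eq_zero.1 h8)
    · exact absurd h8 hj0
  have hD'card : (Finset.univ.filter fun χ : G →* (Fe e)ˣ => χ ∈ D').card ≤ Fintype.card X := by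
    have h3 := card_trivial (F := Fe e) (MulAction.stabilizer G (r j0))
    have h4 : (Finset.univ.filter fun χ : G →* (Fe e)ˣ => χ ∈ D') =
        Finset.univ.filter fun ψ : G →* (Fe e)ˣ =>
          ∀ b ∈ MulAction.stabilizer G (r j0), ψ b = 1 := by
      ext χ
      simp only [Finset.mem_filter, Finset.mem_univ, true_and]
      exact hD'mem χ
    rw [h4, h3, MulAction.index_stabilizer]
    refine (Set.ncard_le_ncard (Set.subset_univ _)).trans ?_
    rw [Set.ncard_univ, Nat.card_eq_fintype_card]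
  have hcD' : c * ((Finset.univ.filter fun χ : G →* (Fe e)ˣ => χ ∈ D').card : ℝ) ≤ St.card := by
    refine le_trans (mul_le_mul_of_nonneg_left ?_ hcpos.le) hStcard
    exact_mod_cast hD'card
  -- a prime with large torsion
  obtain ⟨p, hp, hpe, hMp⟩ : ∃ p : ℕ, p.Prime ∧ p ∣ e ∧
      M < (Finset.univ.filter fun χ : G →* (Fe e)ˣ => χ ∈ D' ∧ χ ^ p = 1).card := by
    by_contra hcon
    push Not at hcon
    have h3 := tors_le D' hM1 e he0 hcon
    have h4 : St ⊆ Finset.univ.filter fun χ : G →* (Fe e)ˣ => χ ∈ D' ∧ χ ^ e = 1 := by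
      intro χ hχ
      rw [Finset.mem_filter]
      refine ⟨Finset.mem_univ _, hStD' χ hχ, ?_⟩
      ext g
      have : (χ g) ^ e = 1 := by rw [← map_pow, hexp, map_one]
      have := congrArg (fun u : (Fe e)ˣ => (u : Fe e)) this
      simpa using this
    have h5 : (St.card : ℝ) ≤ ((M ^ e : ℕ) : ℝ) := by
      exact_mod_cast (Finset.card_le_card h4).trans h3
    have h6 : (n₀ : ℝ) ≤ Fintype.card X := by exact_mod_cast hX
    rw [div_lt_iff₀ hcpos] at hn₀
    nlinarith
  have hpe' : p ≤ e := Nat.le_of_dvd (Nat.pos_of_ne_zero he0) hpe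
  have hp0 : (0 : ℝ) < p := by exact_mod_cast hp.pos
  have hpe'' : (p : ℝ) ≤ (e : ℝ) + 2 := by
    have : (p : ℝ) ≤ e := by exact_mod_cast hpe'
    linarith
  have hMp' : (M : ℝ) ≤
      ((Finset.univ.filter fun χ : G →* (Fe e)ˣ => χ ∈ D' ∧ χ ^ p = 1).card : ℝ) := by
    exact_mod_cast hMp.le
  have hbig : (p : ℝ) ^ d * (2 / c) ^ (2 ^ d) ≤ ((e : ℝ) + 2) ^ d * (2 / c) ^ (2 ^ d) :=
    mul_le_mul_of_nonneg_right (pow_le_pow_left₀ hp0.le hpe'' d) (by positivity)
  obtain ⟨f, hfW, hf0, hsupp⟩ := core hr W t j0 hj0 D' St hStD' (fun χ hχ => by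
      have h3 := Finset.mem_filter.1 hχ
      obtain ⟨h4, -, h5⟩ := hh χ h3.1
      refine ⟨h χ, h4, fun j g => ?_⟩
      rw [h5, show h χ (r j) = t j from congrFun h3.2 j]) hp hcpos hcD' d
    ((hbig.trans hM).trans hMp')
  refine finish hfW hf0 ?_
  intro _
  have h3 : (((Finset.univ.filter fun x => f x ≠ 0).card * p ^ d : ℕ) : ℝ) ≤
      (((p - 1) ^ d * Fintype.card X : ℕ) : ℝ) := by exact_mod_cast hsupp
  push_cast [Nat.cast_sub hp.one_lt.le] at h3
  have h4 : (1 - 1 / (p : ℝ)) ^ d = ((p : ℝ) - 1) ^ d / (p : ℝ) ^ d := by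
    rw [← div_pow]
    congr 1
    field_simp
  have h5 : ((Finset.univ.filter fun x => f x ≠ 0).card : ℝ) ≤
      (1 - 1 / (p : ℝ)) ^ d * Fintype.card X := by
    rw [h4, div_mul_eq_mul_div, le_div_iff₀ (by positivity)]
    exact h3
  refine h5.trans (mul_le_mul_of_nonneg_right ?_ (by positivity))
  refine le_trans (pow_le_pow_left₀ ?_ ?_ d) hd.le
  · have : 1 / (p : ℝ) ≤ 1 := by
      rw [div_le_one hp0]
      exact_mod_cast hp.one_lt.le
    linarith
  · have : 1 / ((e : ℝ) + 2) ≤ 1 / (p : ℝ) := one_div_le_one_div_of_le hp0 hpe''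
    linarith

end Pool.Agent.Helper243Abel
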