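import Pool.Agent.Helper243_Abel.SplitAct
import Pool.Agent.Helper243_Abel.Orbits

/-!
# Codes invariant under an abelian group whose odd part has bounded exponent, with few orbits
-/

set_option autoImplicit false

namespace Pool.Agent.Helper243Abel

open Finset Module

section

variable {G X F : Type} [CommGroup G] [Fintype G] [Field F] [MulAction G X]
  [HasEnoughRootsOfUnity F (Monoid.exponent G)]

/-- The refined dimension bound. -/
theorem finrank_le_sum {R : Type} [Fintype R] {r : R → X}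
    (hr : ∀ x, ∃ (g : G) (j : R), g • r j = x)
    (hG : (Fintype.card G : F) ≠ 0) {W : Submodule F (X → F)} (hW : Inv G W)
    (S : Finset (G →* Fˣ))
    (hS : ∀ χ : G →* Fˣ, (∃ h ∈ W, h ≠ 0 ∧ ∀ (g : G) (x : X), h (g • x) = ((χ g : Fˣ) : F) * h x) →
      χ ∈ S)
    [∀ j, DecidablePred fun χ : G →* Fˣ => ∀ b ∈ MulAction.stabilizer G (r j), χ b = 1] :
    finrank F W ≤ ∑ j : R, (S.filter fun χ => ∀ b ∈ MulAction.stabilizer G (r j), χ b = 1).card := by
  classical
  let Q : Type := Σ j : R, {χ // χ ∈ S.filter fun χ => ∀ b ∈ MulAction.stabilizer G (r j), χ b = 1}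
  let Φ : W →ₗ[F] (Q → F) :=
    { toFun := fun h q => proj (q.2.1 : G →* Fˣ) (h : X → F) (r q.1)
      map_add' := fun a b => by
        funext q
        simp
      map_smul' := fun c a => by
        funext q
        simp }
  have hΦ : Function.Injective Φ := by
    rw [injective_iff_map_eq_zero]
    intro h hh
    apply Subtype.ext
    funext x
    have h1 : ∀ χ : G →* Fˣ, proj χ (h : X → F) = 0 := by
      intro χ
      by_cases hχ : χ ∈ S
      · funext x
        obtain ⟨g, j, rfl⟩ := hr x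
        have h2 : proj χ (h : X → F) (r j) = 0 := by
          by_cases hst : ∀ b ∈ MulAction.stabilizer G (r j), χ b = 1
          · exact congrFun hh (⟨j, ⟨χ, Finset.mem_filter.2 ⟨hχ, hst⟩⟩⟩ : Q)
          · push Not at hst
            obtain ⟨b, hb, hne⟩ := hst
            have h3 := proj_smul χ (h : X → F) b (r j)
            rw [MulAction.mem_stabilizer_iff.1 hb] at h3
            have h4 : (((χ b : Fˣ) : F) - 1) * proj χ (h : X → F) (r j) = 0 := by
              rw [sub_mul, one_mul, ← h3, sub_self]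
            rcases mul_eq_zero.1 h4 with h5 | h5
            · exact absurd (Units.ext (sub_eq_zero.1 h5)) hne
            · exact h5
        rw [proj_smul, h2, mul_zero]
        rfl
      · by_contra h0
        exact hχ (hS χ ⟨_, proj_mem hW χ h.2, h0, fun g x => proj_smul χ _ g x⟩)
    have h3 := sum_proj (G := G) (h : X → F) x
    simp only [h1, Pi.zero_apply, Finset.sum_const_zero] at h3
    rcases mul_eq_zero.1 h3.symm with h4 | h4
    · exact absurd h4 hG
    · exact h4
  have h2 := LinearMap.finrank_le_finrank_of_injective hΦ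
  refine h2.trans (le_of_eq ?_)
  rw [Module.finrank_fintype_fun_eq_card, Fintype.card_sigma]
  exact Finset.sum_congr rfl fun j _ => Fintype.card_coe _

/-- The same bound as a sum over all coordinates. -/
theorem finrank_le_sum' [Fintype X] (hG : (Fintype.card G : F) ≠ 0) {W : Submodule F (X → F)}
    (hW : Inv G W) (S : Finset (G →* Fˣ))
    (hS : ∀ χ : G →* Fˣ, (∃ h ∈ W, h ≠ 0 ∧ ∀ (g : G) (x : X), h (g • x) = ((χ g : Fˣ) : F) * h x) →
      χ ∈ S)
    [∀ x : X, DecidablePred fun χ : G →* Fˣ => ∀ b ∈ MulAction.stabilizer G x, χ b = 1] :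
    (finrank F W : ℝ) ≤ ∑ x : X,
      ((S.filter fun χ => ∀ b ∈ MulAction.stabilizer G x, χ b = 1).card : ℝ) /
        (Nat.card (MulAction.orbit G x) : ℝ) := by
  classical
  have : Fintype (MulAction.orbitRel.Quotient G X) := Fintype.ofFinite _
  have hr : ∀ x : X, ∃ (g : G) (j : MulAction.orbitRel.Quotient G X), g • Quotient.out j = x := by
    intro x
    have h1 : MulAction.orbitRel G X x (Quotient.out (Quotient.mk (MulAction.orbitRel G X) x)) :=
      (MulAction.orbitRel G X).symm (Quotient.mk_out x)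
    rw [MulAction.orbitRel_apply] at h1
    obtain ⟨g, hg⟩ := h1
    exact ⟨g, Quotient.mk _ x, hg⟩
  have h1 := finrank_le_sum hr hG hW S hS
  have h2 : (finrank F W : ℝ) ≤ ∑ j : MulAction.orbitRel.Quotient G X,
      ((S.filter fun χ => ∀ b ∈ MulAction.stabilizer G (Quotient.out j), χ b = 1).card : ℝ) := by
    exact_mod_cast h1
  refine h2.trans (le_of_eq ?_)
  rw [← Finset.sum_fiberwise (s := (Finset.univ : Finset X))
    (g := fun x : X => (Quotient.mk (MulAction.orbitRel G X) x : MulAction.orbitRel.Quotient G X))]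
  refine Finset.sum_congr rfl fun j _ => ?_
  set y := Quotient.out j with hy
  have hstab : ∀ x ∈ Finset.univ.filter (fun x : X =>
      (Quotient.mk (MulAction.orbitRel G X) x : MulAction.orbitRel.Quotient G X) = j),
      MulAction.stabilizer G x = MulAction.stabilizer G y ∧
        MulAction.orbit G x = MulAction.orbit G y := by
    intro x hx
    have hx' := (Finset.mem_filter.1 hx).2
    have h3 : MulAction.orbitRel G X x y := by
      apply Quotient.exact
      rw [hx', hy, Quotient.out_eq]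
    rw [MulAction.orbitRel_apply] at h3
    obtain ⟨g, rfl⟩ := h3
    constructor
    · ext b
      rw [MulAction.mem_stabilizer_iff, MulAction.mem_stabilizer_iff]
      show b • g • y = g • y ↔ b • y = y
      rw [smul_comm]
      exact smul_left_cancel_iff g
    · exact MulAction.orbit_smul g y
  have hval : ∀ x ∈ Finset.univ.filter (fun x : X =>
      (Quotient.mk (MulAction.orbitRel G X) x : MulAction.orbitRel.Quotient G X) = j),
      ((S.filter fun χ => ∀ b ∈ MulAction.stabilizer G x, χ b = 1).card : ℝ) /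
        (Nat.card (MulAction.orbit G x) : ℝ) =
      ((S.filter fun χ => ∀ b ∈ MulAction.stabilizer G y, χ b = 1).card : ℝ) /
        (Nat.card (MulAction.orbit G y) : ℝ) := by
    intro x hx
    obtain ⟨h3, h4⟩ := hstab x hx
    rw [h4]
    congr 3
    ext χ
    simp only [Finset.mem_filter, h3]
  rw [Finset.sum_congr rfl hval, Finset.sum_const, nsmul_eq_mul]
  have hcard : (Finset.univ.filter (fun x : X =>
      (Quotient.mk (MulAction.orbitRel G X) x : MulAction.orbitRel.Quotient G X) = j)).card =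
      Nat.card (MulAction.orbit G y) := by
    refine (Nat.subtype_card (p := fun x => x ∈ MulAction.orbit G y) _ fun x => ?_).symm
    rw [Finset.mem_filter, ← MulAction.orbitRel_apply]
    constructor
    · rintro ⟨-, h⟩
      apply Quotient.exact
      rw [h, hy, Quotient.out_eq]
    · intro h
      refine ⟨Finset.mem_univ _, ?_⟩
      rw [← Quotient.out_eq j]
      exact Quotient.sound h
  rw [hcard]
  have hpos : (0 : ℝ) < (Nat.card (MulAction.orbit G y) : ℝ) := by
    have : Nonempty (MulAction.orbit G y) := ⟨⟨y, MulAction.mem_orbit_self y⟩⟩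
    exact_mod_cast Nat.card_pos
  field_simp

end

/-- Codes with few orbits, general form. -/
theorem orbitsX (e ℓ : ℕ) (he : Odd e) (ρ δ : ℝ) (hρ : 0 < ρ) (hδ : 0 < δ) :
    ∃ n₀ : ℕ, ∀ (G X : Type) [CommGroup G] [Finite G] [Fintype X] [Nonempty X] [MulAction G X],
      (∀ g : G, Odd (orderOf g) → g ^ e = 1) →
      Nat.card (MulAction.orbitRel.Quotient G X) ≤ ℓ →
      2 * (Nat.card {x : X // ordCompl[2] (Nat.card (MulAction.orbit G x)) < n₀} : ℝ) ≤
        ρ * Fintype.card X →
      ∀ C : Submodule (ZMod 2) (X → ZMod 2), Invariant G C →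
        ρ * Fintype.card X ≤ finrank (ZMod 2) C →
        ∃ f ∈ C, f ≠ 0 ∧ (hammingNorm f : ℝ) ≤ δ * Fintype.card X := by
  classical
  have he0 : e ≠ 0 := by rintro rfl; exact absurd he (by decide)
  have : NeZero e := ⟨he0⟩
  have henough := enoughFe he
  have : Fintype (Fe e) := Fintype.ofFinite _
  obtain ⟨q, hq⟩ : ∃ q, q = Fintype.card (Fe e) := ⟨_, rfl⟩
  have hq1 : 1 ≤ q := by rw [hq]; exact Fintype.card_pos
  have hq0 : (0 : ℝ) < q := by exact_mod_cast hq1
  have hq1' : (1 : ℝ) ≤ q := by exact_mod_cast hq1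
  -- the density
  set c : ℝ := ρ / (2 * (q : ℝ) ^ ℓ) with hc
  have hcpos : 0 < c := by positivity
  obtain ⟨d, hd⟩ : ∃ d : ℕ, (1 - 1 / ((e : ℝ) + 2)) ^ d < δ := by
    apply exists_pow_lt_of_lt_one hδ
    have : (0 : ℝ) < 1 / ((e : ℝ) + 2) := by positivity
    linarith
  obtain ⟨M, hM1, hM⟩ : ∃ M : ℕ, 1 ≤ M ∧ ((e : ℝ) + 2) ^ d * (2 / c) ^ (2 ^ d) ≤ M := by
    obtain ⟨M, hM⟩ := exists_nat_ge (((e : ℝ) + 2) ^ d * (2 / c) ^ (2 ^ d))
    exact ⟨M + 1, by omega, hM.trans (by push_cast; linarith)⟩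
  refine ⟨M ^ e + 1, ?_⟩
  intro G X _ _ _ _ _ hexp horb hX C hC hdim
  have : Fintype G := Fintype.ofFinite G
  obtain ⟨s, m, hm, hG⟩ := Nat.exists_eq_two_pow_mul_odd (Fintype.card_ne_zero (α := G))
  have : Fintype (ker G m) := Fintype.ofFinite _
  have hexpK : ∀ g : ker G m, g ^ e = 1 := by
    intro g
    apply Subtype.ext
    show (g : G) ^ e = 1
    apply hexp
    have h1 := orderOf_dvd_of_pow_eq_one (mem_ker.1 g.2)
    exact hm.of_dvd_nat h1
  have hexpdvd : Monoid.exponent (ker G m) ∣ e :=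
    Monoid.exponent_dvd_of_forall_pow_eq_one hexpK
  have henoughG : HasEnoughRootsOfUnity (Fe e) (Monoid.exponent (ker G m)) :=
    HasEnoughRootsOfUnity.of_dvd (Fe e) hexpdvd
  have hGodd : Odd (Fintype.card (ker G m)) := odd_card hm
  have : Fintype (MulAction.orbitRel.Quotient G X) := Fintype.ofFinite _
  set W := ext (Fe e) C with hW
  have hWG : Inv G W := fun g h hh => ext_invariant hC g hh
  have hWinv : Inv (ker G m) W := fun g h hh => hWG (g : G) h hh
  set S : Finset (ker G m →* (Fe e)ˣ) := Finset.univ.filter fun χ => OccursX s m W χ with hS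
  have hSmem : ∀ χ : ker G m →* (Fe e)ˣ, (∃ h ∈ W, h ≠ 0 ∧ ∀ (g : ker G m) (x : X),
      h (g • x) = ((χ g : (Fe e)ˣ) : Fe e) * h x) → χ ∈ S := fun χ hχ => by
    rw [hS, Finset.mem_filter]
    exact ⟨Finset.mem_univ _, occursX_of_eigen hWG hχ⟩
  have h1 := finrank_le_sum' (natCast_ne_zero_of_odd hGodd) hWinv S hSmem
  have h2 : (finrank (ZMod 2) C : ℝ) ≤ finrank (Fe e) W := by
    exact_mod_cast finrank_le (F := Fe e) C
  -- the densities
  set a : X → ℝ := fun x =>
    ((S.filter fun χ => ∀ b ∈ MulAction.stabilizer (ker G m) x, χ b = 1).card : ℝ) /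
        (Nat.card (MulAction.orbit (ker G m) x) : ℝ) with ha
  have horbpos : ∀ x : X, (0 : ℝ) < (Nat.card (MulAction.orbit (ker G m) x) : ℝ) := by
    intro x
    have : Nonempty (MulAction.orbit (ker G m) x) := ⟨⟨x, MulAction.mem_orbit_self x⟩⟩
    exact_mod_cast Nat.card_pos
  have hDcard : ∀ x : X, (Finset.univ.filter fun χ : ker G m →* (Fe e)ˣ =>
      ∀ b ∈ MulAction.stabilizer (ker G m) x, χ b = 1).card =
      Nat.card (MulAction.orbit (ker G m) x) := by
    intro x
    rw [card_trivial (F := Fe e) (MulAction.stabilizer (ker G m) x), MulAction.index_stabilizer]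
    rfl
  have ha1 : ∀ x, a x ≤ 1 := by
    intro x
    rw [ha]
    show _ / _ ≤ (1 : ℝ)
    rw [div_le_one (horbpos x), ← hDcard x]
    exact_mod_cast Finset.card_le_card (Finset.filter_subset_filter _ (Finset.subset_univ S))
  have ha0 : ∀ x, 0 ≤ a x := fun x => by
    rw [ha]
    exact div_nonneg (Nat.cast_nonneg _) (Nat.cast_nonneg _)
  have hXpos : (0 : ℝ) < Fintype.card X := by exact_mod_cast Fintype.card_pos
  -- a good coordinate
  obtain ⟨x₀, hx₀, hax₀⟩ : ∃ x₀ : X, M ^ e + 1 ≤ ordCompl[2] (Nat.card (MulAction.orbit G x₀)) ∧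
      ρ / 2 ≤ a x₀ := by
    by_contra hcon
    push Not at hcon
    have h3 : ∑ x : X, a x ≤ ∑ x : X,
        ((if ordCompl[2] (Nat.card (MulAction.orbit G x)) < M ^ e + 1 then (1 : ℝ) else 0) +
          (if ordCompl[2] (Nat.card (MulAction.orbit G x)) < M ^ e + 1 then 0 else ρ / 2)) := by
      refine Finset.sum_le_sum fun x _ => ?_
      by_cases hx : ordCompl[2] (Nat.card (MulAction.orbit G x)) < M ^ e + 1
      · rw [if_pos hx, if_pos hx, add_zero]
        exact ha1 x
      · rw [if_neg hx, if_neg hx, zero_add]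
        exact (hcon x (not_lt.1 hx)).le
    rw [Finset.sum_add_distrib, Finset.sum_boole] at h3
    have h4 : ((Finset.univ.filter fun x : X =>
        ordCompl[2] (Nat.card (MulAction.orbit G x)) < M ^ e + 1).card : ℝ) =
        (Nat.card {x : X // ordCompl[2] (Nat.card (MulAction.orbit G x)) < M ^ e + 1} : ℝ) := by
      rw [Nat.card_eq_fintype_card, Fintype.card_subtype]
    rw [h4] at h3
    have h5 : ρ * Fintype.card X ≤ ∑ x : X, a x := hdim.trans (h2.trans h1)
    -- if there is a good coordinate the inequality is strict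
    by_cases hgood : ∃ x : X, ¬ ordCompl[2] (Nat.card (MulAction.orbit G x)) < M ^ e + 1
    · obtain ⟨y, hy⟩ := hgood
      have h6 : ∑ x : X, a x < ∑ x : X,
          ((if ordCompl[2] (Nat.card (MulAction.orbit G x)) < M ^ e + 1 then (1 : ℝ) else 0) +
          (if ordCompl[2] (Nat.card (MulAction.orbit G x)) < M ^ e + 1 then 0 else ρ / 2)) := by
        refine Finset.sum_lt_sum (fun x _ => ?_) ⟨y, Finset.mem_univ _, ?_⟩
        · by_cases hx : ordCompl[2] (Nat.card (MulAction.orbit G x)) < M ^ e + 1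
          · rw [if_pos hx, if_pos hx, add_zero]
            exact ha1 x
          · rw [if_neg hx, if_neg hx, zero_add]
            exact (hcon x (not_lt.1 hx)).le
        · rw [if_neg hy, if_neg hy, zero_add]
          exact hcon y (not_lt.1 hy)
      rw [Finset.sum_add_distrib, Finset.sum_boole, h4] at h6
      have h7 : ∑ x : X, (if ordCompl[2] (Nat.card (MulAction.orbit G x)) < M ^ e + 1 then
          (0 : ℝ) else ρ / 2) ≤ ∑ x : X, ρ / 2 := by
        refine Finset.sum_le_sum fun x _ => ?_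
        split_ifs
        · positivity
        · exact le_rfl
      rw [Finset.sum_const, Finset.card_univ, nsmul_eq_mul] at h7
      linarith
    · push Not at hgood
      have h6 : ∑ x : X, (if ordCompl[2] (Nat.card (MulAction.orbit G x)) < M ^ e + 1 then
          (0 : ℝ) else ρ / 2) = 0 :=
        Finset.sum_eq_zero fun x _ => if_pos (hgood x)
      rw [h6, add_zero] at h3
      have h7 : 0 < ρ * Fintype.card X := by positivity
      linarith
  -- the group of characters at `x₀`
  set D' : Subgroup (ker G m →* (Fe e)ˣ) :=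
    { carrier := {χ | ∀ b ∈ MulAction.stabilizer (ker G m) x₀, χ b = 1}
      mul_mem' := by
        intro a b ha hb x hx
        rw [MonoidHom.mul_apply, ha x hx, hb x hx, one_mul]
      one_mem' := by
        intro x _
        rfl
      inv_mem' := by
        intro a ha x hx
        rw [MonoidHom.inv_apply, ha x hx, inv_one] } with hD'
  have hD'mem : ∀ χ, χ ∈ D' ↔ ∀ b ∈ MulAction.stabilizer (ker G m) x₀, χ b = 1 :=
    fun χ => Iff.rfl
  have hD'card : (Finset.univ.filter fun χ : ker G m →* (Fe e)ˣ => χ ∈ D').card =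
      Nat.card (MulAction.orbit (ker G m) x₀) := by
    rw [← hDcard x₀]
    congr 1
    ext χ
    simp only [Finset.mem_filter, Finset.mem_univ, true_and]
    exact hD'mem χ
  set S0 := S.filter fun χ => χ ∈ D' with hS0
  have hS0card : ρ / 2 * (Nat.card (MulAction.orbit (ker G m) x₀) : ℝ) ≤ S0.card := by
    rw [ha] at hax₀
    have h3 := (le_div_iff₀ (horbpos x₀)).1 hax₀
    refine h3.trans (le_of_eq ?_)
    have h4 : (S.filter fun χ => ∀ b ∈ MulAction.stabilizer (ker G m) x₀, χ b = 1) = S0 := by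
      ext χ
      simp only [hS0, Finset.mem_filter]
      exact Iff.rfl
    rw [h4]
  -- the types
  have hchoose : ∀ χ : ker G m →* (Fe e)ˣ, ∃ h : X → Fe e, χ ∈ S →
      h ∈ W ∧ h ≠ 0 ∧ (∀ (g : ker G m) (x : X),
        h (g • x) = ((χ g : (Fe e)ˣ) : Fe e) * h x) ∧ ∀ u ∈ ker G (2 ^ s), ∀ x, h (u • x) = h x := by
    intro χ
    by_cases hχ : χ ∈ S
    · obtain ⟨h, hh⟩ := (Finset.mem_filter.1 hχ).2
      exact ⟨h, fun _ => hh⟩
    · exact ⟨0, fun h => absurd h hχ⟩
  choose h hh using hchoose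
  set Ω := MulAction.orbitRel.Quotient G X with hΩ
  have hrG : ∀ x : X, ∃ (g : G) (j : Ω), g • Quotient.out j = x := by
    intro x
    have h1 : MulAction.orbitRel G X x (Quotient.out (Quotient.mk (MulAction.orbitRel G X) x)) :=
      (MulAction.orbitRel G X).symm (Quotient.mk_out x)
    rw [MulAction.orbitRel_apply] at h1
    obtain ⟨g, hg⟩ := h1
    exact ⟨g, Quotient.mk _ x, hg⟩
  have horb' : Fintype.card Ω ≤ ℓ := by
    rw [← Nat.card_eq_fintype_card]
    exact horb
  let ty : (ker G m →* (Fe e)ˣ) → (Ω → Fe e) := fun χ j => h χ (Quotient.out j)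
  obtain ⟨t, -, ht⟩ := Finset.exists_le_card_fiber_of_nsmul_le_card_of_maps_to
    (s := S0) (t := (Finset.univ : Finset (Ω → Fe e))) (f := ty)
    (b := (S0.card : ℝ) / (q : ℝ) ^ Fintype.card Ω)
    (fun _ _ => Finset.mem_univ _) ⟨0, Finset.mem_univ _⟩ (by
      rw [Finset.card_univ, Fintype.card_fun, nsmul_eq_mul, ← hq]
      push_cast
      field_simp
      exact le_refl _)
  set St := S0.filter fun χ => ty χ = t with hSt
  have hStcard : c * ((Finset.univ.filter fun χ : ker G m →* (Fe e)ˣ => χ ∈ D').card : ℝ) ≤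
      St.card := by
    refine le_trans ?_ ht
    rw [hD'card]
    have h6 : (q : ℝ) ^ Fintype.card Ω ≤ (q : ℝ) ^ ℓ := pow_le_pow_right₀ hq1' horb'
    have h7 : (0 : ℝ) < (q : ℝ) ^ Fintype.card Ω := by positivity
    rw [hc, le_div_iff₀ h7]
    calc ρ / (2 * (q : ℝ) ^ ℓ) * (Nat.card (MulAction.orbit (ker G m) x₀) : ℝ) *
          (q : ℝ) ^ Fintype.card Ω
        ≤ ρ / (2 * (q : ℝ) ^ ℓ) * (Nat.card (MulAction.orbit (ker G m) x₀) : ℝ) *
          (q : ℝ) ^ ℓ := mul_le_mul_of_nonneg_left h6 (by positivity)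
      _ = ρ / 2 * (Nat.card (MulAction.orbit (ker G m) x₀) : ℝ) := by
          field_simp
      _ ≤ S0.card := hS0card
  have hStS : ∀ χ ∈ St, χ ∈ S := fun χ hχ =>
    (Finset.mem_filter.1 (Finset.mem_filter.1 hχ).1).1
  have hStD' : ∀ χ ∈ St, χ ∈ D' := fun χ hχ =>
    (Finset.mem_filter.1 (Finset.mem_filter.1 hχ).1).2
  have hStt : ∀ χ ∈ St, ∀ j, h χ (Quotient.out j) = t j := fun χ hχ j =>
    congrFun (Finset.mem_filter.1 hχ).2 j
  have hD'pos : (0 : ℝ) < ((Finset.univ.filter fun χ : ker G m →* (Fe e)ˣ => χ ∈ D').card : ℝ) := by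
    rw [hD'card]
    exact horbpos x₀
  have hStpos : 0 < St.card := by
    have : 0 < (St.card : ℝ) := lt_of_lt_of_le (by positivity) hStcard
    exact_mod_cast this
  obtain ⟨χ₀, hχ₀⟩ := Finset.card_pos.1 hStpos
  -- decomposition of the elements of `G`
  have hrep : ∀ x : X, ∃ (g : ker G m) (j : Ω × ker G (2 ^ s)),
      g • ((j.2 : G) • (Quotient.out j.1 : X)) = x := by
    intro x
    obtain ⟨g, j, rfl⟩ := hrG x
    obtain ⟨g', u, hgu⟩ := split_surj hm hG g
    refine ⟨g', (j, u), ?_⟩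
    show (g' : G) • ((u : G) • (Quotient.out j : X)) = _
    rw [← mul_smul, hgu]
  -- an orbit on which the type does not vanish
  obtain ⟨j0, hj0⟩ : ∃ j0, t j0 ≠ 0 := by
    by_contra hcon
    push Not at hcon
    obtain ⟨-, h4, h5, h6⟩ := hh χ₀ (hStS χ₀ hχ₀)
    apply h4
    funext x
    obtain ⟨g, j, rfl⟩ := hrep x
    rw [h5, h6 _ j.2.2, hStt χ₀ hχ₀, hcon, mul_zero]
    rfl
  -- a prime with large torsion
  obtain ⟨p, hp, hpe, hMp⟩ : ∃ p : ℕ, p.Prime ∧ p ∣ e ∧
      M < (Finset.univ.filter fun χ : ker G m →* (Fe e)ˣ => χ ∈ D' ∧ χ ^ p = 1).card := by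
    by_contra hcon
    push Not at hcon
    have h3 := tors_le D' hM1 e he0 hcon
    have h4 : (Finset.univ.filter fun χ : ker G m →* (Fe e)ˣ => χ ∈ D') ⊆
        Finset.univ.filter fun χ : ker G m →* (Fe e)ˣ => χ ∈ D' ∧ χ ^ e = 1 := by
      intro χ hχ
      rw [Finset.mem_filter]
      refine ⟨Finset.mem_univ _, (Finset.mem_filter.1 hχ).2, ?_⟩
      ext g
      have : (χ g) ^ e = 1 := by rw [← map_pow, hexpK, map_one]
      have := congrArg (fun u : (Fe e)ˣ => (u : Fe e)) this
      simpa using this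
    have h5 := (Finset.card_le_card h4).trans h3
    rw [hD'card] at h5
    have h6 := odd_orbit hm hG x₀
    omega
  have hpe' : p ≤ e := Nat.le_of_dvd (Nat.pos_of_ne_zero he0) hpe
  have hp0 : (0 : ℝ) < p := by exact_mod_cast hp.pos
  have hpe'' : (p : ℝ) ≤ (e : ℝ) + 2 := by
    have : (p : ℝ) ≤ e := by exact_mod_cast hpe'
    linarith
  have hMp' : (M : ℝ) ≤
      ((Finset.univ.filter fun χ : ker G m →* (Fe e)ˣ => χ ∈ D' ∧ χ ^ p = 1).card : ℝ) := by
    exact_mod_cast hMp.le
  have hbig : (p : ℝ) ^ d * (2 / c) ^ (2 ^ d) ≤ ((e : ℝ) + 2) ^ d * (2 / c) ^ (2 ^ d) :=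
    mul_le_mul_of_nonneg_right (pow_le_pow_left₀ hp0.le hpe'' d) (by positivity)
  obtain ⟨f, hfW, hf0, hsupp⟩ := core (r := fun j : Ω × ker G (2 ^ s) =>
      ((j.2 : G) • (Quotient.out j.1 : X))) hrep W (fun j => t j.1) (j0, 1) hj0 D' St hStD'
    (fun χ hχ => by
      obtain ⟨h4, -, h5, h6⟩ := hh χ (hStS χ hχ)
      refine ⟨h χ, h4, fun j g => ?_⟩
      rw [h5, h6 _ j.2.2, hStt χ hχ]) hp hcpos hStcard d
    ((hbig.trans hM).trans hMp')
  refine finish hfW hf0 ?_
  intro _
  have h3 : (((Finset.univ.filter fun x => f x ≠ 0).card * p ^ d : ℕ) : ℝ) ≤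
      (((p - 1) ^ d * Fintype.card X : ℕ) : ℝ) := by exact_mod_cast hsupp
  push_cast [Nat.cast_sub hp.one_lt.le] at h3
  have h4 : (1 - 1 / (p : ℝ)) ^ d = ((p : ℝ) - 1) ^ d / (p : ℝ) ^ d := by
    rw [← div_pow]
    congr 1
    field_simp
  have h5 : ((Finset.univ.filter fun x => f x ≠ 0).card : ℝ) ≤
      (1 - 1 / (p : ℝ)) ^ d * Fintype.card X := by
    rw [h4, div_mul_eq_mul_div, le_div_iff₀ (by positivity)]
    exact h3
  refine h5.trans (mul_le_mul_of_nonneg_right ?_ (by positivity))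
  refine le_trans (pow_le_pow_left₀ ?_ ?_ d) hd.le
  · have : 1 / (p : ℝ) ≤ 1 := by
      rw [div_le_one hp0]
      exact_mod_cast hp.one_lt.le
    linarith
  · have : 1 / ((e : ℝ) + 2) ≤ 1 / (p : ℝ) := one_div_le_one_div_of_le hp0 hpe''
    linarith

end Pool.Agent.Helper243Abel
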