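import Pool.Agent.Helper243_Abel.Base

/-!
# Projections onto the eigenspaces of a finite commutative group

The dimension of an invariant space of functions is at most the number of its characters times the
number of the orbits.
-/

set_option autoImplicit false

namespace Pool.Agent.Helper243Abel

open Finset Module

section proj

variable {G X F : Type} [CommGroup G] [Fintype G] [Field F] [MulAction G X]
  [HasEnoughRootsOfUnity F (Monoid.exponent G)]

noncomputable instance : Fintype (G →* Fˣ) := Fintype.ofFinite _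

theorem card_dual : Fintype.card (G →* Fˣ) = Fintype.card G := by
  rw [← Nat.card_eq_fintype_card, CommGroup.card_monoidHom_of_hasEnoughRootsOfUnity,
    Nat.card_eq_fintype_card]

theorem sum_char {g : G} (hg : g ≠ 1) : ∑ χ : G →* Fˣ, (((χ g)⁻¹ : Fˣ) : F) = 0 := by
  obtain ⟨φ, hφ⟩ := CommGroup.exists_apply_ne_one_of_hasEnoughRootsOfUnity G F hg
  have h1 : ∑ χ : G →* Fˣ, (((χ g)⁻¹ : Fˣ) : F) =
      (((φ g)⁻¹ : Fˣ) : F) * ∑ χ : G →* Fˣ, (((χ g)⁻¹ : Fˣ) : F) := by
    rw [Finset.mul_sum]
    rw [← Equiv.sum_comp (Equiv.mulRight φ)]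
    refine Finset.sum_congr rfl fun χ _ => ?_
    rw [Equiv.coe_mulRight, MonoidHom.mul_apply, mul_inv, Units.val_mul, mul_comm]
  have h2 : (((φ g)⁻¹ : Fˣ) : F) ≠ 1 := by
    intro h
    apply hφ
    have : (φ g)⁻¹ = 1 := Units.ext h
    exact inv_eq_one.1 this
  have h3 : (1 - (((φ g)⁻¹ : Fˣ) : F)) * ∑ χ : G →* Fˣ, (((χ g)⁻¹ : Fˣ) : F) = 0 := by
    rw [sub_mul, one_mul, ← h1, sub_self]
  rcases mul_eq_zero.1 h3 with h | h
  · exact absurd (sub_eq_zero.1 h).symm h2
  · exact h

/-- (A multiple of) the projection onto the eigenspace of the character `χ`. -/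
noncomputable def proj (χ : G →* Fˣ) : (X → F) →ₗ[F] (X → F) where
  toFun h := fun x => ∑ g : G, (((χ g)⁻¹ : Fˣ) : F) * h (g • x)
  map_add' a b := by
    funext x
    simp [mul_add, Finset.sum_add_distrib]
  map_smul' c a := by
    funext x
    simp only [Pi.smul_apply, smul_eq_mul, RingHom.id_apply, Finset.mul_sum]
    exact Finset.sum_congr rfl fun g _ => by ring

theorem proj_apply (χ : G →* Fˣ) (h : X → F) (x : X) :
    proj χ h x = ∑ g : G, (((χ g)⁻¹ : Fˣ) : F) * h (g • x) := rfl

theorem proj_smul (χ : G →* Fˣ) (h : X → F) (k : G) (x : X) :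
    proj χ h (k • x) = ((χ k : Fˣ) : F) * proj χ h x := by
  rw [proj_apply, proj_apply, Finset.mul_sum]
  rw [← Equiv.sum_comp (Equiv.mulRight k)
    (fun g => ((χ k : Fˣ) : F) * ((((χ g)⁻¹ : Fˣ) : F) * h (g • x)))]
  refine Finset.sum_congr rfl fun g _ => ?_
  rw [Equiv.coe_mulRight, map_mul, mul_inv, Units.val_mul, ← mul_assoc, mul_smul]
  congr 1
  rw [mul_comm ((((χ g)⁻¹ : Fˣ) : F)) _, ← mul_assoc, ← Units.val_mul, mul_inv_cancel,
    Units.val_one, one_mul]

theorem sum_proj (h : X → F) (x : X) :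
    ∑ χ : G →* Fˣ, proj χ h x = (Fintype.card G : F) * h x := by
  simp_rw [proj_apply]
  rw [Finset.sum_comm]
  rw [Finset.sum_eq_single (1 : G)]
  · rw [← card_dual (G := G) (F := F)]
    simp
  · intro g _ hg
    rw [← Finset.sum_mul, sum_char hg, zero_mul]
  · intro h
    exact absurd (Finset.mem_univ _) h

/-- The space `W` is invariant. -/
def Inv (G : Type) {X F : Type} [Group G] [Field F] [MulAction G X] (W : Submodule F (X → F)) :
    Prop := ∀ g : G, ∀ h ∈ W, (fun x => h (g • x)) ∈ W

theorem proj_mem {W : Submodule F (X → F)} (hW : Inv G W) (χ : G →* Fˣ) {h : X → F}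
    (hh : h ∈ W) : proj χ h ∈ W := by
  have : proj χ h = ∑ g : G, (((χ g)⁻¹ : Fˣ) : F) • fun x => h (g • x) := by
    funext x
    rw [proj_apply, Finset.sum_apply]
    rfl
  rw [this]
  exact W.sum_mem fun g _ => W.smul_mem _ (hW g h hh)

/-- The dimension bound. -/
theorem finrank_le_card {R : Type} [Fintype R] {r : R → X} (hr : ∀ x, ∃ (g : G) (j : R), g • r j = x)
    (hG : (Fintype.card G : F) ≠ 0) {W : Submodule F (X → F)} (hW : Inv G W)
    (S : Finset (G →* Fˣ))
    (hS : ∀ χ : G →* Fˣ, (∃ h ∈ W, h ≠ 0 ∧ ∀ (g : G) (x : X), h (g • x) = ((χ g : Fˣ) : F) * h x) →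
      χ ∈ S) :
    finrank F W ≤ S.card * Fintype.card R := by
  classical
  let Φ : W →ₗ[F] (S × R → F) :=
    { toFun := fun h q => proj (q.1 : G →* Fˣ) (h : X → F) (r q.2)
      map_add' := fun a b => by
        funext q
        simp
      map_smul' := fun c a => by
        funext q
        simp }
  have hΦ : Function.Injective Φ := by
    rw [injective_iff_map_eq_zero]
    intro h hh
    apply Subtype.ext
    funext x
    have h1 : ∀ χ : G →* Fˣ, proj χ (h : X → F) = 0 := by
      intro χ
      by_cases hχ : χ ∈ S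
      · funext x
        obtain ⟨g, j, rfl⟩ := hr x
        have h2 : proj χ (h : X → F) (r j) = 0 := congrFun hh (⟨χ, hχ⟩, j)
        rw [proj_smul, h2, mul_zero]
        rfl
      · by_contra h0
        exact hχ (hS χ ⟨_, proj_mem hW χ h.2, h0, fun g x => proj_smul χ _ g x⟩)
    have h3 := sum_proj (G := G) (h : X → F) x
    simp only [h1, Pi.zero_apply, Finset.sum_const_zero] at h3
    rcases mul_eq_zero.1 h3.symm with h4 | h4
    · exact absurd h4 hG
    · exact h4
  have := LinearMap.finrank_le_finrank_of_injective hΦ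
  simpa using this

end proj

end Pool.Agent.Helper243Abel
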