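import Pool.Agent.Helper243_Abel.Abelian

/-!
# Abelian codes whose length has bounded prime factors
-/

set_option autoImplicit false

namespace Pool.Agent.Helper243Abel

open Finset Module

section

variable {A : Type} [CommGroup A] [Fintype A] {s m : ℕ}

theorem occurs_sq {F : Type} [Field F] [Algebra (ZMod 2) F]
    {C : Submodule (ZMod 2) (A → ZMod 2)} {χ : ker A m →* Fˣ} (h : Occurs s m (ext F C) χ)
    (k : ℕ) : Occurs s m (ext F C) (χ ^ (2 ^ k)) := by
  induction k with
  | zero => simpa using h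
  | succ k ih =>
    obtain ⟨f, hf, h1⟩ := ih
    refine ⟨fun x => f x ^ 2, ext_sq hf, fun u g => ?_⟩
    show f (g • (u : A)) ^ 2 = _
    rw [h1, pow_succ 2 k, pow_mul]
    rfl

/-- A character of large order in an abelian code yields a word of small weight. -/
theorem large_order [hm : Fact (Odd m)] (hA : Fintype.card A = 2 ^ s * m) {y : ℕ}
    (hy : ∀ p : ℕ, p.Prime → p ≠ 2 → p ∣ Fintype.card A → p ≤ y)
    {C : Submodule (ZMod 2) (A → ZMod 2)}
    {χ : ker A m →* K2ˣ} (hχ : Occurs s m (ext K2 C) χ) :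
    ∃ f ∈ C, f ≠ 0 ∧ (hammingNorm f : ℝ) ≤ ((xx y - 1 : ℕ) : ℝ) / orderOf χ * Fintype.card A := by
  classical
  have hchar : CharP K2 2 := charP_of_injective_algebraMap (algebraMap (ZMod 2) K2).injective 2
  have : Fintype (ker A m) := Fintype.ofFinite _
  set n := orderOf χ with hn
  have hn0 : n ≠ 0 := (orderOf_pos χ).ne'
  have hndvd : n ∣ Fintype.card (ker A m) := by
    rw [← card_dual (G := ker A m) (F := K2)]
    exact orderOf_dvd_card
  have hnodd : Odd n := (odd_card hm.out).of_dvd_nat hndvd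
  have hny : ∀ p, p.Prime → p ∣ n → p ≤ y := by
    intro p hp hpn
    refine hy p hp ?_ ?_
    · rintro rfl
      exact (Nat.not_even_iff_odd.2 hnodd) (even_iff_two_dvd.2 hpn)
    · have h1 : Nat.card (ker A m) ∣ Nat.card A := Subgroup.card_subgroup_dvd_card _
      rw [Nat.card_eq_fintype_card, Nat.card_eq_fintype_card] at h1
      exact (hpn.trans hndvd).trans h1
  set g := Nat.gcd n (xx y - 1) with hg
  have hgpos : 0 < g := Nat.gcd_pos_of_pos_left _ (Nat.pos_of_ne_zero hn0)
  obtain ⟨K, hK⟩ : g ∣ n := Nat.gcd_dvd_left _ _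
  have hKpos : 0 < K := Nat.pos_of_ne_zero (by rintro rfl; rw [mul_zero] at hK; exact hn0 hK)
  have hKodd : Odd K := hnodd.of_dvd_nat ⟨g, by rw [hK, mul_comm]⟩
  have hocc : ∀ j : ℕ, Occurs s m (ext K2 C) (χ ^ (1 + g * j)) := by
    intro j
    obtain ⟨t, ht⟩ := powers hn0 hnodd hny j
    have h1 : χ ^ (1 + g * j) = χ ^ (2 ^ (y.factorial * t)) := by
      rw [← xx_pow]
      exact pow_eq_of_modEq χ ht.symm
    rw [h1]
    exact occurs_sq hχ _
  choose h hhW hh using hocc
  set H : A → K2 := ∑ j ∈ range K, h j with hH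
  have hHval : ∀ (u : ker A (2 ^ s)) (a : ker A m), H (a • (u : A)) =
      ((χ a : K2ˣ) : K2) * ∑ j ∈ range K, (((χ a : K2ˣ) : K2) ^ g) ^ j := by
    intro u a
    rw [hH, Finset.sum_apply, Finset.mul_sum]
    refine Finset.sum_congr rfl fun j _ => ?_
    rw [hh j u a, MonoidHom.pow_apply, Units.val_pow_eq_pow_val, pow_add, pow_one, pow_mul]
  have hpown : ∀ a, (((χ a : K2ˣ) : K2) ^ g) ^ K = 1 := by
    intro a
    rw [← pow_mul, ← hK, ← Units.val_pow_eq_pow_val]
    have : χ ^ n = 1 := pow_orderOf_eq_one χ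
    have := congrArg (fun φ : ker A m →* K2ˣ => φ a) this
    have h2 : (χ a) ^ n = 1 := by simpa using this
    rw [h2, Units.val_one]
  have hH1 : H ((1 : ker A m) • ((1 : ker A (2 ^ s)) : A)) ≠ 0 := by
    rw [hHval]
    simp only [map_one, Units.val_one, one_pow, Finset.sum_const, Finset.card_range, one_mul,
      nsmul_eq_mul, mul_one]
    exact natCast_ne_zero_of_odd hKodd
  have hHne : H ≠ 0 := by
    intro h0
    apply hH1
    rw [h0]
    rfl
  have hHW : H ∈ ext K2 C := Submodule.sum_mem _ fun j _ => hhW j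
  set N : Finset (ker A m) := Finset.univ.filter fun a => (χ ^ g) a = 1 with hN
  have hsupp : ∀ (u : ker A (2 ^ s)) (a : ker A m), H (a • (u : A)) ≠ 0 → a ∈ N := by
    intro u a h0
    rw [hN, Finset.mem_filter]
    refine ⟨Finset.mem_univ _, ?_⟩
    by_contra hne
    apply h0
    rw [hHval]
    have hne' : ((χ a : K2ˣ) : K2) ^ g ≠ 1 := by
      intro h1
      apply hne
      apply Units.ext
      rw [MonoidHom.pow_apply, Units.val_pow_eq_pow_val, h1, Units.val_one]
    have h2 := geom_sum_mul (((χ a : K2ˣ) : K2) ^ g) K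
    rw [hpown, sub_self] at h2
    rcases mul_eq_zero.1 h2 with h3 | h3
    · rw [h3, mul_zero]
    · exact absurd (sub_eq_zero.1 h3) hne'
  have hNcard : N.card * K ≤ Fintype.card (ker A m) := by
    have h1 : N.card = Nat.card (χ ^ g).ker := by
      rw [hN]
      exact (Nat.subtype_card _ fun a => by simp [MonoidHom.mem_ker]).symm
    have h2 : K ≤ Nat.card (χ ^ g).range := by
      have h3 : orderOf (χ ^ g) = K := orderOf_pow_of_dvd χ hgpos hK
      rw [← h3]
      have hfin : Finite (χ ^ g).range := inferInstance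
      refine Nat.le_of_dvd Nat.card_pos (orderOf_dvd_of_pow_eq_one ?_)
      ext a
      have h4 : (⟨(χ ^ g) a, ⟨a, rfl⟩⟩ : (χ ^ g).range) ^ Nat.card (χ ^ g).range = 1 :=
        pow_card_eq_one'
      have h5 := congrArg (fun z : (χ ^ g).range => ((z : K2ˣ) : K2)) h4
      simpa using h5
    have h3 : Nat.card (χ ^ g).ker * Nat.card (χ ^ g).range = Nat.card (ker A m) := by
      rw [← Subgroup.index_ker, Subgroup.card_mul_index]
    rw [h1, ← Nat.card_eq_fintype_card, ← h3]
    exact Nat.mul_le_mul_left _ h2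
  refine finish hHW hHne ?_
  intro _
  have hw := weight (G := ker A m) (X := A) (r := fun u : ker A (2 ^ s) => (u : A)) (fun x => by
      obtain ⟨g, u, h⟩ := split_surj (A := A) hm.out hA x
      exact ⟨g, u, h⟩) H N hsupp
  have hGpos : 0 < Fintype.card (ker A m) := Fintype.card_pos
  have h1 : (Finset.univ.filter fun x => H x ≠ 0).card * K ≤ Fintype.card A := by
    refine Nat.le_of_mul_le_mul_right (c := Fintype.card (ker A m)) ?_ hGpos
    calc (Finset.univ.filter fun x => H x ≠ 0).card * K * Fintype.card (ker A m)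
        = ((Finset.univ.filter fun x => H x ≠ 0).card * Fintype.card (ker A m)) * K := by ring
      _ ≤ (Fintype.card A * N.card) * K := Nat.mul_le_mul_right _ hw
      _ = Fintype.card A * (N.card * K) := by ring
      _ ≤ _ := Nat.mul_le_mul_left _ hNcard
  have h2 : ((Finset.univ.filter fun x => H x ≠ 0).card : ℝ) * K ≤ Fintype.card A := by
    exact_mod_cast h1
  have hnpos : (0 : ℝ) < n := by exact_mod_cast Nat.pos_of_ne_zero hn0
  have hgle : (g : ℝ) ≤ ((xx y - 1 : ℕ) : ℝ) := by
    have : g ≤ xx y - 1 := Nat.gcd_le_right _ (by have := one_lt_xx y; omega)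
    exact_mod_cast this
  have hnK : (n : ℝ) = g * K := by exact_mod_cast hK
  rw [div_mul_eq_mul_div, le_div_iff₀ hnpos, hnK]
  calc ((Finset.univ.filter fun x => H x ≠ 0).card : ℝ) * (g * K)
      = g * (((Finset.univ.filter fun x => H x ≠ 0).card : ℝ) * K) := by ring
    _ ≤ g * Fintype.card A := mul_le_mul_of_nonneg_left h2 (by positivity)
    _ ≤ _ := mul_le_mul_of_nonneg_right hgle (by positivity)

end

/-- Abelian codes of smooth length. -/
theorem smooth (y : ℕ) (ρ δ : ℝ) (hρ : 0 < ρ) (hδ : 0 < δ) :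
    ∃ n₀ : ℕ, ∀ (A : Type) [CommGroup A] [Fintype A],
      (∀ p : ℕ, p.Prime → p ∣ Fintype.card A → p ≤ y) →
      (∀ k : ℕ, ∀ m : ℕ, Odd m → Fintype.card A = 2 ^ k * m → n₀ ≤ m) →
      ∀ C : Submodule (ZMod 2) (A → ZMod 2), Invariant A C →
        ρ * Fintype.card A ≤ finrank (ZMod 2) C →
        ∃ f ∈ C, f ≠ 0 ∧ (hammingNorm f : ℝ) ≤ δ * Fintype.card A := by
  classical
  -- the dimension of the cubes
  obtain ⟨d, hd⟩ : ∃ d : ℕ, (1 - 1 / ((y : ℝ) + 2)) ^ d < δ := by
    apply exists_pow_lt_of_lt_one hδ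
    have : (0 : ℝ) < 1 / ((y : ℝ) + 2) := by positivity
    linarith
  -- the bound for the torsion
  obtain ⟨M, hM1, hM⟩ : ∃ M : ℕ, 1 ≤ M ∧ ((y : ℝ) + 2) ^ d * (2 / ρ) ^ (2 ^ d) ≤ M := by
    obtain ⟨M, hM⟩ := exists_nat_ge (((y : ℝ) + 2) ^ d * (2 / ρ) ^ (2 ^ d))
    exact ⟨M + 1, by omega, hM.trans (by push_cast; linarith)⟩
  -- the bound for the orders of the characters
  obtain ⟨B, hB⟩ := exists_nat_gt (((xx y - 1 : ℕ) : ℝ) / δ)
  obtain ⟨L, hL⟩ : ∃ L, L = B.factorial := ⟨_, rfl⟩
  obtain ⟨n₀, hn₀⟩ := exists_nat_gt (((M ^ L : ℕ) : ℝ) / ρ)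
  refine ⟨n₀, ?_⟩
  intro A _ _ hy hodd C hC hdim
  obtain ⟨s, m, hm, hA⟩ := Nat.exists_eq_two_pow_mul_odd (Fintype.card_ne_zero (α := A))
  have hm₀ := hodd s m hm hA
  have : Fact (Odd m) := ⟨hm⟩
  have : Fintype (ker A m) := Fintype.ofFinite _
  by_cases hlarge : ∃ χ : ker A m →* K2ˣ, Occurs s m (ext K2 C) χ ∧ B < orderOf χ
  · obtain ⟨χ, hχ, hord⟩ := hlarge
    obtain ⟨f, hf, hf0, hw⟩ := large_order hA (fun p hp _ hpA => hy p hp hpA) hχ
    refine ⟨f, hf, hf0, hw.trans ?_⟩
    apply mul_le_mul_of_nonneg_right _ (by positivity)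
    have h1 : (0 : ℝ) < orderOf χ := by exact_mod_cast orderOf_pos χ
    rw [div_le_iff₀ h1]
    rw [div_lt_iff₀ hδ] at hB
    have h2 : (B : ℝ) ≤ orderOf χ := by exact_mod_cast hord.le
    nlinarith
  · push Not at hlarge
    by_cases htors : ∃ p : ℕ, p.Prime ∧ p ≠ 2 ∧ M < Nat.card {a : A // a ^ p = 1}
    · obtain ⟨p, hp, hp2, hMp⟩ := htors
      -- `p` divides the order of `A`
      have hpA : p ∣ Fintype.card A := by
        have h1 : 1 < Nat.card {a : A // a ^ p = 1} := lt_of_le_of_lt hM1 hMp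
        have : Nontrivial {a : A // a ^ p = 1} := (Finite.one_lt_card_iff_nontrivial).1 h1
        obtain ⟨a, ha⟩ := exists_ne (⟨1, one_pow p⟩ : {a : A // a ^ p = 1})
        have h2 : (a : A) ≠ 1 := fun h => ha (Subtype.ext h)
        have := Fact.mk hp
        rw [← orderOf_eq_prime a.2 h2]
        exact orderOf_dvd_card
      have hpy := hy p hp hpA
      have hpy' : (p : ℝ) ≤ (y : ℝ) + 2 := by
        have : (p : ℝ) ≤ y := by exact_mod_cast hpy
        linarith
      have hp0 : (0 : ℝ) < p := by exact_mod_cast hp.pos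
      have hMp' : (M : ℝ) ≤ (Nat.card {a : A // a ^ p = 1} : ℝ) := by exact_mod_cast hMp.le
      have hbig : (p : ℝ) ^ d * (2 / ρ) ^ (2 ^ d) ≤ ((y : ℝ) + 2) ^ d * (2 / ρ) ^ (2 ^ d) :=
        mul_le_mul_of_nonneg_right (pow_le_pow_left₀ hp0.le hpy' d) (by positivity)
      obtain ⟨f, hf, hf0, hw⟩ := torsion_bound A p d hp hp2 ρ hρ
        ((hbig.trans hM).trans hMp') C hC hdim
      refine ⟨f, hf, hf0, hw.trans ?_⟩
      apply mul_le_mul_of_nonneg_right _ (by positivity)
      refine le_trans (pow_le_pow_left₀ ?_ ?_ d) hd.le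
      · have : 1 / (p : ℝ) ≤ 1 := by
          rw [div_le_one hp0]
          exact_mod_cast hp.one_lt.le
        linarith
      · have : 1 / ((y : ℝ) + 2) ≤ 1 / (p : ℝ) := one_div_le_one_div_of_le hp0 hpy'
        linarith
    · exfalso
      push Not at htors
      have hS := many_characters hA hC hdim
      set S := Finset.univ.filter fun χ : ker A m →* K2ˣ => Occurs s m (ext K2 C) χ with hSdef
      -- the orders of the characters are bounded
      have h1 : S ⊆ Finset.univ.filter fun χ : ker A m →* K2ˣ =>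
          χ ∈ (⊤ : Subgroup (ker A m →* K2ˣ)) ∧ χ ^ L = 1 := by
        intro χ hχ
        rw [Finset.mem_filter]
        refine ⟨Finset.mem_univ _, Subgroup.mem_top _, ?_⟩
        exact pow_eq_one_of_dvd χ (by
          rw [hL]
          exact Nat.dvd_factorial (orderOf_pos χ) (hlarge χ (Finset.mem_filter.1 hχ).2))
      have h2 : (Finset.univ.filter fun χ : ker A m →* K2ˣ =>
          χ ∈ (⊤ : Subgroup (ker A m →* K2ˣ)) ∧ χ ^ L = 1).card ≤ M ^ L := by
        apply tors_le ⊤ hM1 L (by rw [hL]; exact Nat.factorial_ne_zero _)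
        intro p hp _
        rw [card_tors_dual]
        by_cases hp2 : p = 2
        · -- the odd part has no elements of order two
          subst hp2
          have : Subsingleton {g : ker A m // g ^ 2 = 1} := by
            constructor
            rintro ⟨g, hg⟩ ⟨g', hg'⟩
            have h3 : ∀ g : ker A m, g ^ 2 = 1 → g = 1 := by
              intro g hg
              have h4 := orderOf_dvd_of_pow_eq_one hg
              have h5 : orderOf g ∣ Fintype.card (ker A m) := orderOf_dvd_card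
              have h6 : Nat.Coprime 2 (Fintype.card (ker A m)) :=
                (odd_card hm).coprime_two_left
              exact orderOf_eq_one_iff.1 (Nat.eq_one_of_dvd_coprimes h6 h4 h5)
            apply Subtype.ext
            show g = g'
            rw [h3 g hg, h3 g' hg']
          exact (Finite.card_le_one_iff_subsingleton.2 this).trans hM1
        · rw [card_tors hm hA hp hp2]
          exact htors p hp hp2
      have h3 : (S.card : ℝ) ≤ ((M ^ L : ℕ) : ℝ) := by
        exact_mod_cast (Finset.card_le_card h1).trans h2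
      -- the odd part of `A` is large
      have h4 : (n₀ : ℝ) ≤ Fintype.card (ker A m) := by
        have h5 : m ≤ Fintype.card (ker A m) := le_card_odd hm hA
        exact_mod_cast hm₀.trans h5
      rw [div_lt_iff₀ hρ] at hn₀
      nlinarith

end Pool.Agent.Helper243Abel
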