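import Pool.Agent.Helper243_Abel.Core

/-!
# The odd part and the 2-part of a finite abelian group

Characters of the odd part `G` of `A`, and the vectors of an invariant space of functions on `A` on
which `G` acts by a character and the `2`-part `P` acts trivially.
-/

set_option autoImplicit false

namespace Pool.Agent.Helper243Abel

open Finset Module

section split

variable {A : Type} [CommGroup A] [Fintype A]

/-- The subgroup of the elements with `a ^ m = 1`. -/
def ker (A : Type) [CommGroup A] (m : ℕ) : Subgroup A := (powMonoidHom m : A →* A).ker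

theorem mem_ker {m : ℕ} {a : A} : a ∈ ker A m ↔ a ^ m = 1 := by
  unfold ker
  rw [MonoidHom.mem_ker]
  rfl

theorem split_surj {s m : ℕ} (hm : Odd m) (hA : Fintype.card A = 2 ^ s * m) (x : A) :
    ∃ (g : ker A m) (u : ker A (2 ^ s)), (g : A) * u = x := by
  have hcop : Nat.Coprime m (2 ^ s) := Nat.Coprime.pow_right _ hm.coprime_two_right
  have hb := Nat.gcd_eq_gcd_ab m (2 ^ s)
  rw [hcop, Nat.cast_one] at hb
  have hx : x ^ (2 ^ s * m) = 1 := by rw [← hA]; exact pow_card_eq_one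
  refine ⟨⟨x ^ ((2 ^ s : ℕ) * Nat.gcdB m (2 ^ s) : ℤ), ?_⟩,
    ⟨x ^ ((m : ℕ) * Nat.gcdA m (2 ^ s) : ℤ), ?_⟩, ?_⟩
  · rw [mem_ker, ← zpow_natCast, ← zpow_mul]
    have : ((2 ^ s : ℕ) : ℤ) * Nat.gcdB m (2 ^ s) * (m : ℕ) =
        ((2 ^ s * m : ℕ) : ℤ) * Nat.gcdB m (2 ^ s) := by push_cast; ring
    rw [this, zpow_mul, zpow_natCast, hx, one_zpow]
  · rw [mem_ker, ← zpow_natCast, ← zpow_mul]
    have : ((m : ℕ) : ℤ) * Nat.gcdA m (2 ^ s) * ((2 ^ s : ℕ) : ℤ) =
        ((2 ^ s * m : ℕ) : ℤ) * Nat.gcdA m (2 ^ s) := by push_cast; ring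
    rw [this, zpow_mul, zpow_natCast, hx, one_zpow]
  · show x ^ _ * x ^ _ = x
    rw [← zpow_add, add_comm, ← hb, zpow_one]

theorem split_disj {s m : ℕ} (hm : Odd m) {x : A} (h1 : x ∈ ker A m) (h2 : x ∈ ker A (2 ^ s)) :
    x = 1 := by
  have hcop : Nat.Coprime m (2 ^ s) := Nat.Coprime.pow_right _ hm.coprime_two_right
  rw [mem_ker] at h1 h2
  have h3 := orderOf_dvd_of_pow_eq_one h1
  have h4 := orderOf_dvd_of_pow_eq_one h2
  exact orderOf_eq_one_iff.1 (Nat.eq_one_of_dvd_coprimes hcop h3 h4)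

theorem card_split {s m : ℕ} (hm : Odd m) [Fintype (ker A m)] [Fintype (ker A (2 ^ s))] :
    Fintype.card (ker A m) * Fintype.card (ker A (2 ^ s)) ≤ Fintype.card A := by
  rw [← Fintype.card_prod]
  refine Fintype.card_le_of_injective (fun q => (q.1 : A) * q.2) ?_
  rintro ⟨g, u⟩ ⟨g', u'⟩ h
  have h' : (g : A) * u = g' * u' := h
  have h1 : (g' : A)⁻¹ * g = u' * (u : A)⁻¹ := by
    rw [inv_mul_eq_iff_eq_mul, ← mul_assoc, ← h', mul_assoc, mul_inv_cancel, mul_one]
  have h2 : (g' : A)⁻¹ * g = 1 := by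
    apply split_disj (s := s) hm
    · exact (ker A m).mul_mem ((ker A m).inv_mem g'.2) g.2
    · rw [h1]
      exact (ker A (2 ^ s)).mul_mem u'.2 ((ker A (2 ^ s)).inv_mem u.2)
  have h3 : (g : A) = g' := (inv_mul_eq_one.1 h2).symm
  have h4 : (u : A) = u' := by
    rw [h2] at h1
    exact (mul_inv_eq_one.1 h1.symm).symm
  rw [Prod.mk.injEq]
  exact ⟨Subtype.ext h3, Subtype.ext h4⟩

/-- the odd part has order `m` -/
theorem le_card_odd {s m : ℕ} (hm : Odd m) (hA : Fintype.card A = 2 ^ s * m)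
    [Fintype (ker A m)] : m ≤ Fintype.card (ker A m) := by
  classical
  have : Fintype (ker A (2 ^ s)) := Fintype.ofFinite _
  have h1 : Fintype.card A ≤ Fintype.card (ker A m) * Fintype.card (ker A (2 ^ s)) := by
    rw [← Fintype.card_prod]
    refine Fintype.card_le_of_surjective (fun q : ker A m × ker A (2 ^ s) => (q.1 : A) * q.2) ?_
    intro x
    obtain ⟨g, u, h⟩ := split_surj hm hA x
    exact ⟨(g, u), h⟩
  have h2 : Fintype.card (ker A (2 ^ s)) ∣ 2 ^ s * m := by
    rw [← hA, ← Nat.card_eq_fintype_card, ← Nat.card_eq_fintype_card]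
    exact Subgroup.card_subgroup_dvd_card _
  have h3 : Nat.Coprime (Fintype.card (ker A (2 ^ s))) m := by
    apply Nat.Coprime.symm
    apply Nat.coprime_of_dvd
    intro q hq hqm hqP
    have : Fact q.Prime := ⟨hq⟩
    obtain ⟨u, hu⟩ := exists_prime_orderOf_dvd_card (G := ker A (2 ^ s)) q hqP
    have h4 : u ^ (2 ^ s) = 1 := by
      apply Subtype.ext
      have := u.2
      rw [mem_ker] at this
      simpa using this
    have h5 := orderOf_dvd_of_pow_eq_one h4
    rw [hu] at h5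
    have h6 : q = 2 := (Nat.prime_dvd_prime_iff_eq hq Nat.prime_two).1 (hq.dvd_of_dvd_pow h5)
    rw [h6] at hqm
    exact (Nat.not_even_iff_odd.2 hm) (even_iff_two_dvd.2 hqm)
  have h4 : Fintype.card (ker A (2 ^ s)) ≤ 2 ^ s :=
    Nat.le_of_dvd (by positivity) (h3.dvd_of_dvd_mul_right h2)
  rw [hA] at h1
  have h5 : 2 ^ s * m ≤ 2 ^ s * Fintype.card (ker A m) := by
    calc 2 ^ s * m ≤ Fintype.card (ker A m) * Fintype.card (ker A (2 ^ s)) := h1
      _ ≤ Fintype.card (ker A m) * 2 ^ s := Nat.mul_le_mul_left _ h4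
      _ = 2 ^ s * Fintype.card (ker A m) := mul_comm _ _
  exact Nat.le_of_mul_le_mul_left h5 (by positivity)

/-- the odd part has odd order -/
theorem odd_card {m : ℕ} (hm : Odd m) [Fintype (ker A m)] : Odd (Fintype.card (ker A m)) := by
  rw [← Nat.not_even_iff_odd]
  intro h
  obtain ⟨g, hg⟩ := exists_prime_orderOf_dvd_card (G := ker A m) 2 (even_iff_two_dvd.1 h)
  have h1 : g ^ m = 1 := by
    apply Subtype.ext
    have := g.2
    rw [mem_ker] at this
    simpa using this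
  have h2 := orderOf_dvd_of_pow_eq_one h1
  rw [hg] at h2
  exact (Nat.not_even_iff_odd.2 hm) (even_iff_two_dvd.2 h2)

variable {F : Type} [Field F] [Algebra (ZMod 2) F]

/-- iterates of the difference operator -/
theorem iterate_diff (u : A) (k : ℕ) : ∀ (h : A → F) (x : A),
    ((fun h : A → F => fun x => h (u * x) + h x)^[2 ^ k] h) x = h (u ^ (2 ^ k) * x) + h x := by
  have hchar : CharP F 2 := charP_of_injective_algebraMap (algebraMap (ZMod 2) F).injective 2
  induction k with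
  | zero => intro h x; simp
  | succ k ih =>
    intro h x
    rw [pow_succ, mul_two, Function.iterate_add_apply, ih, ih, ih, ← mul_assoc, ← pow_add]
    have h1 := CharTwo.add_self_eq_zero (h (u ^ 2 ^ k * x))
    linear_combination h1

/-- A nonzero vector fixed by the 2-part. -/
theorem fixed {s : ℕ} (M : Submodule F (A → F)) (hM : ∀ u ∈ ker A (2 ^ s), ∀ h ∈ M,
    (fun x => h (u * x)) ∈ M) (hne : ∃ h ∈ M, h ≠ 0) :
    ∃ h ∈ M, h ≠ 0 ∧ ∀ u ∈ ker A (2 ^ s), ∀ x, h (u * x) = h x := by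
  classical
  have hchar : CharP F 2 := charP_of_injective_algebraMap (algebraMap (ZMod 2) F).injective 2
  suffices h : ∀ T : Finset A, (∀ u ∈ T, u ∈ ker A (2 ^ s)) →
      ∃ h ∈ M, h ≠ 0 ∧ ∀ u ∈ T, ∀ x, h (u * x) = h x by
    obtain ⟨h, h1, h2, h3⟩ := h (Finset.univ.filter fun u => u ∈ ker A (2 ^ s))
      fun u hu => (Finset.mem_filter.1 hu).2
    exact ⟨h, h1, h2, fun u hu => h3 u (Finset.mem_filter.2 ⟨Finset.mem_univ _, hu⟩)⟩
  intro T
  induction T using Finset.induction_on with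
  | empty =>
    intro _
    obtain ⟨h, h1, h2⟩ := hne
    exact ⟨h, h1, h2, fun u hu => absurd hu (Finset.notMem_empty u)⟩
  | insert u T _ ih =>
    intro hT
    obtain ⟨h, h1, h2, h3⟩ := ih fun v hv => hT v (Finset.mem_insert_of_mem hv)
    have hu := hT u (Finset.mem_insert_self _ _)
    set Df : (A → F) → (A → F) := fun h => fun x => h (u * x) + h x with hDf
    have hex : ∃ n, Df^[n] h = 0 := by
      refine ⟨2 ^ s, ?_⟩
      funext x
      rw [hDf, iterate_diff u s h x, mem_ker.1 hu, one_mul]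
      exact CharTwo.add_self_eq_zero _
    have hinv : ∀ n, Df^[n] h ∈ M ∧ ∀ v ∈ T, ∀ x, (Df^[n] h) (v * x) = (Df^[n] h) x := by
      intro n
      induction n with
      | zero => exact ⟨h1, h3⟩
      | succ n ihn =>
        rw [Function.iterate_succ_apply']
        refine ⟨M.add_mem (hM u hu _ ihn.1) ihn.1, fun v hv x => ?_⟩
        show (Df^[n] h) (u * (v * x)) + (Df^[n] h) (v * x) = (Df^[n] h) (u * x) + (Df^[n] h) x
        rw [mul_left_comm, ihn.2 v hv, ihn.2 v hv]
    have hspec := Nat.find_spec hex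
    have hpos : Nat.find hex ≠ 0 := by
      intro h0
      rw [h0] at hspec
      exact h2 hspec
    obtain ⟨n, hn⟩ : ∃ n, Nat.find hex = n + 1 := ⟨Nat.find hex - 1, by omega⟩
    rw [hn, Function.iterate_succ_apply'] at hspec
    refine ⟨Df^[n] h, (hinv n).1, Nat.find_min hex (by omega), fun v hv x => ?_⟩
    rcases Finset.mem_insert.1 hv with rfl | hv
    · have h4 := congrFun hspec x
      have h5 : (Df^[n] h) (v * x) + (Df^[n] h) x = 0 := h4
      exact CharTwo.add_eq_zero.1 h5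
    · exact (hinv n).2 v hv x

/-- The characters which occur in an invariant space. -/
def Occurs (s m : ℕ) (W : Submodule F (A → F)) (χ : ker A m →* Fˣ) : Prop :=
  ∃ h ∈ W, ∀ (u : ker A (2 ^ s)) (g : ker A m), h (g • (u : A)) = ((χ g : Fˣ) : F)

theorem occurs_of_eigen {s m : ℕ} (hm : Odd m) (hA : Fintype.card A = 2 ^ s * m)
    {W : Submodule F (A → F)} (hW : Inv A W) {χ : ker A m →* Fˣ}
    (hχ : ∃ h ∈ W, h ≠ 0 ∧ ∀ (g : ker A m) (x : A), h (g • x) = ((χ g : Fˣ) : F) * h x) :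
    Occurs s m W χ := by
  let M : Submodule F (A → F) :=
    { carrier := {h | h ∈ W ∧ ∀ (g : ker A m) (x : A), h (g • x) = ((χ g : Fˣ) : F) * h x}
      add_mem' := by
        rintro a b ⟨ha, ha'⟩ ⟨hb, hb'⟩
        refine ⟨W.add_mem ha hb, fun g x => ?_⟩
        rw [Pi.add_apply, Pi.add_apply, ha', hb', mul_add]
      zero_mem' := ⟨W.zero_mem, fun g x => by simp⟩
      smul_mem' := by
        rintro c a ⟨ha, ha'⟩
        refine ⟨W.smul_mem c ha, fun g x => ?_⟩
        rw [Pi.smul_apply, Pi.smul_apply, ha', smul_eq_mul, smul_eq_mul]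
        ring }
  obtain ⟨h, hh, h0, hfix⟩ := fixed (s := s) M (fun u _ h hh => ⟨hW u h hh.1, fun g x => by
      show h (u * ((g : A) * x)) = _ * h (u * x)
      rw [mul_left_comm]
      exact hh.2 g (u * x)⟩) (by
    obtain ⟨h, h1, h2, h3⟩ := hχ
    exact ⟨h, ⟨h1, h3⟩, h2⟩)
  have h1 : ∀ (u : ker A (2 ^ s)) (g : ker A m), h (g • (u : A)) = ((χ g : Fˣ) : F) * h 1 := by
    intro u g
    rw [hh.2 g (u : A)]
    congr 1
    have := hfix u u.2 1
    rwa [mul_one] at this
  have h2 : h 1 ≠ 0 := by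
    intro h3
    apply h0
    funext x
    obtain ⟨g, u, rfl⟩ := split_surj (A := A) hm hA x
    have := h1 u g
    rw [h3, mul_zero] at this
    exact this
  refine ⟨(h 1)⁻¹ • h, W.smul_mem _ hh.1, fun u g => ?_⟩
  rw [Pi.smul_apply, h1, smul_eq_mul]
  field_simp

end split

end Pool.Agent.Helper243Abel
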