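import Pool.Agent.Helper243_Abel.Split

/-!
# Eigenvectors of abelian groups acting on the coordinates
-/

set_option autoImplicit false

namespace Pool.Agent.Helper243Abel

open Finset Module

section

variable {G X : Type} [CommGroup G] [Fintype G] [MulAction G X]
variable {F : Type} [Field F] [Algebra (ZMod 2) F]

/-- iterates of the difference operator -/
theorem iterate_diffX (u : G) (k : ℕ) : ∀ (h : X → F) (x : X),
    ((fun h : X → F => fun x => h (u • x) + h x)^[2 ^ k] h) x = h (u ^ (2 ^ k) • x) + h x := by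
  have hchar : CharP F 2 := charP_of_injective_algebraMap (algebraMap (ZMod 2) F).injective 2
  induction k with
  | zero => intro h x; simp
  | succ k ih =>
    intro h x
    rw [pow_succ, mul_two, Function.iterate_add_apply, ih, ih, ih, ← mul_smul, ← pow_add]
    have h1 := CharTwo.add_self_eq_zero (h (u ^ 2 ^ k • x))
    linear_combination h1

/-- A nonzero vector fixed by the 2-part. -/
theorem fixedX {s : ℕ} (M : Submodule F (X → F)) (hM : ∀ u ∈ ker G (2 ^ s), ∀ h ∈ M,
    (fun x => h (u • x)) ∈ M) (hne : ∃ h ∈ M, h ≠ 0) :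
    ∃ h ∈ M, h ≠ 0 ∧ ∀ u ∈ ker G (2 ^ s), ∀ x, h (u • x) = h x := by
  classical
  have hchar : CharP F 2 := charP_of_injective_algebraMap (algebraMap (ZMod 2) F).injective 2
  suffices h : ∀ T : Finset G, (∀ u ∈ T, u ∈ ker G (2 ^ s)) →
      ∃ h ∈ M, h ≠ 0 ∧ ∀ u ∈ T, ∀ x, h (u • x) = h x by
    obtain ⟨h, h1, h2, h3⟩ := h (Finset.univ.filter fun u => u ∈ ker G (2 ^ s))
      fun u hu => (Finset.mem_filter.1 hu).2
    exact ⟨h, h1, h2, fun u hu => h3 u (Finset.mem_filter.2 ⟨Finset.mem_univ _, hu⟩)⟩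
  intro T
  induction T using Finset.induction_on with
  | empty =>
    intro _
    obtain ⟨h, h1, h2⟩ := hne
    exact ⟨h, h1, h2, fun u hu => absurd hu (Finset.notMem_empty u)⟩
  | insert u T _ ih =>
    intro hT
    obtain ⟨h, h1, h2, h3⟩ := ih fun v hv => hT v (Finset.mem_insert_of_mem hv)
    have hu := hT u (Finset.mem_insert_self _ _)
    set Df : (X → F) → (X → F) := fun h => fun x => h (u • x) + h x with hDf
    have hex : ∃ n, Df^[n] h = 0 := by
      refine ⟨2 ^ s, ?_⟩
      funext x
      rw [hDf, iterate_diffX u s h x, mem_ker.1 hu, one_smul]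
      exact CharTwo.add_self_eq_zero _
    have hinv : ∀ n, Df^[n] h ∈ M ∧ ∀ v ∈ T, ∀ x, (Df^[n] h) (v • x) = (Df^[n] h) x := by
      intro n
      induction n with
      | zero => exact ⟨h1, h3⟩
      | succ n ihn =>
        rw [Function.iterate_succ_apply']
        refine ⟨M.add_mem (hM u hu _ ihn.1) ihn.1, fun v hv x => ?_⟩
        show (Df^[n] h) (u • v • x) + (Df^[n] h) (v • x) = (Df^[n] h) (u • x) + (Df^[n] h) x
        rw [smul_comm, ihn.2 v hv, ihn.2 v hv]
    have hspec := Nat.find_spec hex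
    have hpos : Nat.find hex ≠ 0 := by
      intro h0
      rw [h0] at hspec
      exact h2 hspec
    obtain ⟨n, hn⟩ : ∃ n, Nat.find hex = n + 1 := ⟨Nat.find hex - 1, by omega⟩
    rw [hn, Function.iterate_succ_apply'] at hspec
    refine ⟨Df^[n] h, (hinv n).1, Nat.find_min hex (by omega), fun v hv x => ?_⟩
    rcases Finset.mem_insert.1 hv with rfl | hv
    · have h4 := congrFun hspec x
      have h5 : (Df^[n] h) (v • x) + (Df^[n] h) x = 0 := h4
      exact CharTwo.add_eq_zero.1 h5
    · exact (hinv n).2 v hv x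

/-- The characters of the odd part which occur in an invariant space. -/
def OccursX (s m : ℕ) (W : Submodule F (X → F)) (χ : ker G m →* Fˣ) : Prop :=
  ∃ h ∈ W, h ≠ 0 ∧ (∀ (g : ker G m) (x : X), h (g • x) = ((χ g : Fˣ) : F) * h x) ∧
    ∀ u ∈ ker G (2 ^ s), ∀ x, h (u • x) = h x

theorem occursX_of_eigen {s m : ℕ} {W : Submodule F (X → F)} (hW : Inv G W)
    {χ : ker G m →* Fˣ}
    (hχ : ∃ h ∈ W, h ≠ 0 ∧ ∀ (g : ker G m) (x : X), h (g • x) = ((χ g : Fˣ) : F) * h x) :
    OccursX s m W χ := by
  let M : Submodule F (X → F) :=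
    { carrier := {h | h ∈ W ∧ ∀ (g : ker G m) (x : X), h (g • x) = ((χ g : Fˣ) : F) * h x}
      add_mem' := by
        rintro a b ⟨ha, ha'⟩ ⟨hb, hb'⟩
        refine ⟨W.add_mem ha hb, fun g x => ?_⟩
        rw [Pi.add_apply, Pi.add_apply, ha', hb', mul_add]
      zero_mem' := ⟨W.zero_mem, fun g x => by simp⟩
      smul_mem' := by
        rintro c a ⟨ha, ha'⟩
        refine ⟨W.smul_mem c ha, fun g x => ?_⟩
        rw [Pi.smul_apply, Pi.smul_apply, ha', smul_eq_mul, smul_eq_mul]
        ring }
  obtain ⟨h, hh, h0, hfix⟩ := fixedX (s := s) M (fun u _ h hh => ⟨hW u h hh.1, fun g x => by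
      show h (u • (g : G) • x) = _ * h (u • x)
      rw [smul_comm]
      exact hh.2 g (u • x)⟩) (by
    obtain ⟨h, h1, h2, h3⟩ := hχ
    exact ⟨h, ⟨h1, h3⟩, h2⟩)
  exact ⟨h, hh.1, h0, hh.2, hfix⟩

/-- The orbit of the odd part is at least as long as the odd part of the orbit length. -/
theorem odd_orbit {s m : ℕ} (hm : Odd m) (hG : Fintype.card G = 2 ^ s * m) [Finite X] (x : X) :
    ordCompl[2] (Nat.card (MulAction.orbit G x)) ≤ Nat.card (MulAction.orbit (ker G m) x) := by
  classical
  have : Fintype (ker G m) := Fintype.ofFinite _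
  set H := MulAction.stabilizer G x with hH
  set K := ker G m with hK
  have h1 : Nat.card (MulAction.orbit G x) = H.index := by
    rw [MulAction.index_stabilizer]
    rfl
  have h2 : Nat.card (MulAction.orbit K x) = H.relIndex K := by
    have h3 : MulAction.stabilizer K x = H.subgroupOf K := by
      ext g
      rw [MulAction.mem_stabilizer_iff, Subgroup.mem_subgroupOf, MulAction.mem_stabilizer_iff]
      rfl
    rw [Subgroup.relIndex, ← h3, MulAction.index_stabilizer]
    rfl
  have h3 : H.index = H.relIndex K * (K ⊔ H).index := by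
    rw [← Subgroup.relIndex_mul_index (le_sup_right : H ≤ K ⊔ H), Subgroup.relIndex_sup_right]
  -- the index of `K ⊔ H` is a power of two
  have h4 : ∃ a, (K ⊔ H).index = 2 ^ a := by
    have h5 : (K ⊔ H).index ∣ K.index := Subgroup.index_dvd_of_le le_sup_left
    have h6 : K.index ∣ 2 ^ s := by
      have h7 : Nat.card K * K.index = 2 ^ s * m := by
        rw [Subgroup.card_mul_index, Nat.card_eq_fintype_card, hG]
      have h8 : m ≤ Nat.card K := by
        rw [Nat.card_eq_fintype_card]
        exact le_card_odd hm hG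
      -- the cardinality of `K` is odd and so divides `m`
      have h9 : Odd (Nat.card K) := by
        rw [Nat.card_eq_fintype_card]
        exact odd_card hm
      have h10 : Nat.card K ∣ m := by
        have h11 : Nat.card K ∣ 2 ^ s * m := Dvd.intro _ h7
        have h12 : Nat.Coprime (Nat.card K) (2 ^ s) :=
          Nat.Coprime.pow_right _ h9.coprime_two_right
        exact h12.dvd_of_dvd_mul_left h11
      have hmpos : 0 < m := hm.pos
      have h11 : Nat.card K = m := le_antisymm (Nat.le_of_dvd hmpos h10) h8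
      rw [h11, mul_comm] at h7
      exact ⟨1, by rw [mul_one]; exact (Nat.eq_of_mul_eq_mul_right hmpos h7).symm⟩
    obtain ⟨a, -, ha⟩ := (Nat.dvd_prime_pow Nat.prime_two).1 (h5.trans h6)
    exact ⟨a, ha⟩
  obtain ⟨a, ha⟩ := h4
  rw [h1, h2, h3, ha, mul_comm, Nat.ordCompl_self_pow_mul _ _ Nat.prime_two]
  exact Nat.ordCompl_le _ _

end

end Pool.Agent.Helper243Abel
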