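import Pool.Agent.Helper243_Abel.Proj

/-!
# Cubes of characters and words of small weight
-/

set_option autoImplicit false

namespace Pool.Agent.Helper243Abel

open Finset Module

section window

variable {G F : Type} [CommGroup G] [Fintype G] [Field F]

/-- The elements of an invariant set where a character of prime order is not one. -/
theorem count {p : ℕ} (hp : p.Prime) {B : Subgroup G} {N : Finset G}
    (hN : ∀ g ∈ N, ∀ b ∈ B, g * b ∈ N) {ψ : G →* Fˣ} (hψ : ψ ^ p = 1) {b : G} (hb : b ∈ B)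
    (hψb : ψ b ≠ 1) [DecidablePred fun g : G => ψ g ≠ 1] :
    (N.filter fun g => ψ g ≠ 1).card * p ≤ (p - 1) * N.card ∧
      (N.Nonempty → (N.filter fun g => ψ g ≠ 1).Nonempty) := by
  classical
  have hpow : ∀ g, (ψ g) ^ p = 1 := fun g => by
    have := congrArg (fun φ : G →* Fˣ => φ g) hψ
    simpa using this
  have hprim : IsPrimitiveRoot ((ψ b : Fˣ) : F) p := by
    rw [IsPrimitiveRoot.coe_units_iff]
    have := orderOf_eq_prime (hp := ⟨hp⟩) (hpow b) hψb
    rw [← this]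
    exact IsPrimitiveRoot.orderOf _
  constructor
  · have h1 : N ⊆ (range p).biUnion fun i => (N.filter fun g => ψ g = 1).image (· * b ^ i) := by
      intro g hg
      have : NeZero p := ⟨hp.ne_zero⟩
      obtain ⟨i, hi, h⟩ := hprim.eq_pow_of_pow_eq_one (ξ := ((ψ g : Fˣ) : F)) (by
        rw [← Units.val_pow_eq_pow_val, hpow g, Units.val_one])
      have h' : (ψ b) ^ i = ψ g := by
        apply Units.ext
        rw [Units.val_pow_eq_pow_val, h]
      rw [Finset.mem_biUnion]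
      refine ⟨i, Finset.mem_range.2 hi, ?_⟩
      rw [Finset.mem_image]
      refine ⟨g * (b ^ i)⁻¹, ?_, by group⟩
      rw [Finset.mem_filter]
      refine ⟨hN g hg _ (B.inv_mem (B.pow_mem hb i)), ?_⟩
      rw [map_mul, map_inv, map_pow, h', mul_inv_cancel]
    have h2 : N.card ≤ p * (N.filter fun g => ψ g = 1).card := by
      refine (Finset.card_le_card h1).trans (Finset.card_biUnion_le.trans ?_)
      refine (Finset.sum_le_card_nsmul _ _ (N.filter fun g => ψ g = 1).card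
        (fun i _ => Finset.card_image_le)).trans ?_
      rw [Finset.card_range, smul_eq_mul]
    have h3 : (N.filter fun g => ψ g = 1).card + (N.filter fun g => ψ g ≠ 1).card = N.card :=
      Finset.card_filter_add_card_filter_not (fun g => ψ g = 1)
    obtain ⟨q, rfl⟩ : ∃ q, p = q + 1 := ⟨p - 1, by have := hp.pos; omega⟩
    rw [Nat.add_sub_cancel]
    nlinarith
  · rintro ⟨g, hg⟩
    by_cases h : ψ g = 1
    · refine ⟨g * b, Finset.mem_filter.2 ⟨hN g hg b hb, ?_⟩⟩
      rw [map_mul, h, one_mul]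
      exact hψb
    · exact ⟨g, Finset.mem_filter.2 ⟨hg, h⟩⟩

variable [HasEnoughRootsOfUnity F (Monoid.exponent G)]

/-- The number of the characters which are trivial on `B`. -/
theorem card_trivial (B : Subgroup G) [DecidablePred fun ψ : G →* Fˣ => ∀ b ∈ B, ψ b = 1] :
    ((Finset.univ : Finset (G →* Fˣ)).filter fun ψ => ∀ b ∈ B, ψ b = 1).card = B.index := by
  have h := CommGroup.card_domRestrictHom_ker (G := G) F B
  rw [Subgroup.index, ← h]
  refine (Nat.subtype_card _ fun ψ => ?_).symm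
  simp only [Finset.mem_filter, Finset.mem_univ, true_and, MonoidHom.mem_ker,
    MonoidHom.domRestrictHom_apply, MonoidHom.domRestrict_eq_one_iff]

/-- Choice of a popular difference which is not trivial on `B`. -/
theorem pick (B : Subgroup G) (E T : Finset (G →* Fˣ)) [DecidableEq (G →* Fˣ)]
    (hET : ∀ χ ∈ T, ∀ χ' ∈ T, χ⁻¹ * χ' ∈ E) {k : ℕ} (hk : B.index ≤ k) {c : ℝ} (hc : 0 < c)
    (hcT : c * E.card ≤ T.card) (hkE : 2 * (k : ℝ) ≤ c * E.card) :
    ∃ ψ ∈ E, (∃ b ∈ B, ψ b ≠ 1) ∧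
      c ^ 2 / 2 * E.card ≤ ((T.filter fun χ => χ * ψ ∈ T).card : ℝ) := by
  classical
  set f : (G →* Fˣ) → ℕ := fun ψ => (T.filter fun χ => χ * ψ ∈ T).card with hf
  have hk1 : (1 : ℝ) ≤ k := by
    have : B.index ≠ 0 := Subgroup.index_ne_zero_of_finite
    exact_mod_cast (Nat.one_le_iff_ne_zero.2 this).trans hk
  have hsum : T.card ^ 2 ≤ ∑ ψ ∈ E, f ψ := by
    have h1 : ∑ ψ ∈ E, f ψ = ∑ χ ∈ T, (E.filter fun ψ => χ * ψ ∈ T).card := by
      simp only [hf, Finset.card_filter]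
      rw [Finset.sum_comm]
    rw [h1, sq, ← smul_eq_mul, ← Finset.sum_const]
    refine Finset.sum_le_sum fun χ hχ => ?_
    rw [← Finset.card_image_of_injective T (mul_right_injective χ⁻¹)]
    apply Finset.card_le_card
    intro ψ hψ
    obtain ⟨χ', hχ', rfl⟩ := Finset.mem_image.1 hψ
    rw [Finset.mem_filter]
    have h2 : χ * (χ⁻¹ * χ') = χ' := by
      ext g
      simp
    exact ⟨hET χ hχ χ' hχ', by
      show χ * (χ⁻¹ * χ') ∈ T
      rw [h2]
      exact hχ'⟩
  have hZ : ∑ ψ ∈ E.filter (fun ψ => ∀ b ∈ B, ψ b = 1), f ψ ≤ k * T.card := by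
    refine (Finset.sum_le_card_nsmul _ _ T.card fun ψ _ => ?_).trans ?_
    · exact Finset.card_le_card (Finset.filter_subset _ _)
    · rw [smul_eq_mul]
      apply Nat.mul_le_mul_right
      refine le_trans (Finset.card_le_card ?_) ((card_trivial B).trans_le hk)
      intro ψ hψ
      rw [Finset.mem_filter] at hψ ⊢
      exact ⟨Finset.mem_univ _, hψ.2⟩
  have hsplit : ∑ ψ ∈ E.filter (fun ψ => ∀ b ∈ B, ψ b = 1), f ψ +
      ∑ ψ ∈ E.filter (fun ψ => ¬ ∀ b ∈ B, ψ b = 1), f ψ = ∑ ψ ∈ E, f ψ :=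
    Finset.sum_filter_add_sum_filter_not E _ _
  set S := E.filter (fun ψ => ¬ ∀ b ∈ B, ψ b = 1) with hS
  have hEpos : 0 < (E.card : ℝ) := by
    by_contra hcon
    push Not at hcon
    nlinarith
  have hT : (k : ℝ) * 2 ≤ T.card := by linarith
  have hbig : c ^ 2 / 2 * E.card * E.card ≤ ∑ ψ ∈ S, (f ψ : ℝ) := by
    have h1 : ((T.card ^ 2 : ℕ) : ℝ) ≤ ((k * T.card + ∑ ψ ∈ S, f ψ : ℕ) : ℝ) := by
      exact_mod_cast (hsum.trans (by omega))
    push_cast at h1
    nlinarith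
  have hne : S.Nonempty := by
    by_contra hcon
    rw [Finset.not_nonempty_iff_eq_empty] at hcon
    rw [hcon, Finset.sum_empty] at hbig
    have : 0 < c ^ 2 / 2 * E.card * E.card := by positivity
    linarith
  obtain ⟨ψ, hψ, hle⟩ := Finset.exists_le_of_sum_le (s := S)
    (f := fun _ => c ^ 2 / 2 * (E.card : ℝ)) (g := fun ψ => (f ψ : ℝ)) hne (by
      rw [Finset.sum_const, nsmul_eq_mul]
      refine le_trans ?_ hbig
      have h1 : (S.card : ℝ) ≤ E.card := by exact_mod_cast Finset.card_le_card (Finset.filter_subset _ _)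
      have h2 : 0 ≤ c ^ 2 / 2 * (E.card : ℝ) := by positivity
      nlinarith)
  rw [hS, Finset.mem_filter] at hψ
  refine ⟨ψ, hψ.1, ?_, hle⟩
  have := hψ.2
  push Not at this
  exact this

variable {X R : Type} [MulAction G X] [Algebra (ZMod 2) F]

/-- The main induction. -/
theorem window (W : Submodule F (X → F)) (r : R → X) {p : ℕ} (hp : p.Prime)
    (E : Finset (G →* Fˣ)) (hE : ∀ ψ ∈ E, ψ ^ p = 1) (j0 : R) :
    ∀ (d k : ℕ) (c : ℝ) (T : Finset (G →* Fˣ)) (B : Subgroup G) (N : Finset G) (w : R → G → F),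
      0 < c → c ≤ 1 → (∀ χ ∈ T, ∀ χ' ∈ T, χ⁻¹ * χ' ∈ E) → c * E.card ≤ T.card → B.index ≤ k →
      (k : ℝ) * (p : ℝ) ^ d * (2 / c) ^ (2 ^ d) ≤ E.card → N.Nonempty →
      (∀ g ∈ N, ∀ b ∈ B, g * b ∈ N) → (∀ j g, w j g ≠ 0 → g ∈ N) → (∀ g ∈ N, w j0 g ≠ 0) →
      (∀ χ ∈ T, ∃ h ∈ W, ∀ j g, h (g • r j) = ((χ g : Fˣ) : F) * w j g) →
      ∃ h ∈ W, ∃ N' : Finset G, N'.Nonempty ∧ N'.card * p ^ d ≤ (p - 1) ^ d * N.card ∧
        (∀ j g, h (g • r j) ≠ 0 → g ∈ N') ∧ ∀ g ∈ N', h (g • r j0) ≠ 0 := by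
  classical
  have hchar : CharP F 2 := charP_of_injective_algebraMap (algebraMap (ZMod 2) F).injective 2
  intro d
  induction d with
  | zero =>
    intro k c T B N w hc hc1 hET hcT hk hbig hN hNB hw hw0 hT
    have hk1 : (1 : ℝ) ≤ k := by
      have : B.index ≠ 0 := Subgroup.index_ne_zero_of_finite
      exact_mod_cast (Nat.one_le_iff_ne_zero.2 this).trans hk
    have h2c : 2 ≤ 2 / c := by
      rw [le_div_iff₀ hc]; linarith
    have hEpos : 0 < (E.card : ℝ) := by
      have : (0 : ℝ) < (k : ℝ) * (p : ℝ) ^ 0 * (2 / c) ^ (2 ^ 0) := by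
        rw [pow_zero, pow_zero, pow_one, mul_one]
        positivity
      linarith
    have hTpos : 0 < (T.card : ℝ) := lt_of_lt_of_le (by positivity) hcT
    obtain ⟨χ, hχ⟩ := Finset.card_pos.1 (by exact_mod_cast hTpos : 0 < T.card)
    obtain ⟨h, hhW, hh⟩ := hT χ hχ
    refine ⟨h, hhW, N, hN, by simp, fun j g hjg => ?_, fun g hg => ?_⟩
    · apply hw j g
      intro h0
      rw [hh, h0, mul_zero] at hjg
      exact hjg rfl
    · rw [hh]
      exact mul_ne_zero (Units.ne_zero _) (hw0 g hg)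
  | succ d ih =>
    intro k c T B N w hc hc1 hET hcT hk hbig hN hNB hw hw0 hT
    have hk1 : (1 : ℝ) ≤ k := by
      have : B.index ≠ 0 := Subgroup.index_ne_zero_of_finite
      exact_mod_cast (Nat.one_le_iff_ne_zero.2 this).trans hk
    have hp1 : (1 : ℝ) ≤ p := by exact_mod_cast hp.one_lt.le
    have h2c : 2 ≤ 2 / c := by
      rw [le_div_iff₀ hc]; linarith
    have hkE : 2 * (k : ℝ) ≤ c * E.card := by
      have h1 : 2 / c ≤ (2 / c) ^ (2 ^ (d + 1)) :=
        le_self_pow₀ (by linarith) (by positivity)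
      have h2 : (1 : ℝ) ≤ (p : ℝ) ^ (d + 1) := one_le_pow₀ hp1
      have h3 : (k : ℝ) * (2 / c) ≤ (k : ℝ) * (p : ℝ) ^ (d + 1) * (2 / c) ^ (2 ^ (d + 1)) := by
        have h4 : (k : ℝ) * 1 ≤ (k : ℝ) * (p : ℝ) ^ (d + 1) :=
          mul_le_mul_of_nonneg_left h2 (by linarith)
        rw [mul_one] at h4
        exact mul_le_mul h4 h1 (by linarith) (by positivity)
      have h5 : (k : ℝ) * (2 / c) ≤ E.card := h3.trans hbig
      have h6 : (k : ℝ) * (2 / c) * c = 2 * k := by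
        field_simp
      nlinarith
    obtain ⟨ψ, hψE, ⟨b, hbB, hψb⟩, hpop⟩ := pick B E T hET hk hc hcT hkE
    have hψp := hE ψ hψE
    obtain ⟨hcount, hne⟩ := count hp hNB hψp hbB hψb
    have hindex : (B ⊓ ψ.ker).index ≤ k * p := by
      refine Subgroup.index_inf_le.trans (Nat.mul_le_mul hk ?_)
      rw [Subgroup.index_ker]
      have hle : ψ.range ≤ rootsOfUnity p F := by
        rintro _ ⟨g, rfl⟩
        rw [mem_rootsOfUnity]
        have := congrArg (fun φ : G →* Fˣ => φ g) hψp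
        simpa using this
      have : NeZero p := ⟨hp.ne_zero⟩
      have h1 : Nat.card ψ.range ≤ Nat.card (rootsOfUnity p F) :=
        Nat.card_le_card_of_injective _ (Subgroup.inclusion_injective hle)
      exact h1.trans (card_rootsOfUnity F p)
    have a1 : ((k * p : ℕ) : ℝ) * (p : ℝ) ^ d * (2 / (c ^ 2 / 2)) ^ (2 ^ d) ≤ E.card := by
      refine le_trans (le_of_eq ?_) hbig
      have : (2 / (c ^ 2 / 2)) = (2 / c) ^ 2 := by
        field_simp
      rw [this, ← pow_mul, ← pow_succ']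
      push_cast
      ring
    have a2 : ∀ g ∈ N.filter (fun g => ψ g ≠ 1), ∀ b ∈ B ⊓ ψ.ker,
        g * b ∈ N.filter (fun g => ψ g ≠ 1) := by
      intro g hg b' hb'
      rw [Finset.mem_filter] at hg ⊢
      refine ⟨hNB g hg.1 b' hb'.1, ?_⟩
      rw [map_mul, (MonoidHom.mem_ker).1 hb'.2, mul_one]
      exact hg.2
    have a3 : ∀ j g, w j g * (1 + ((ψ g : Fˣ) : F)) ≠ 0 → g ∈ N.filter (fun g => ψ g ≠ 1) := by
      intro j g hjg
      rw [Finset.mem_filter]
      refine ⟨hw j g (left_ne_zero_of_mul hjg), ?_⟩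
      intro h0
      apply right_ne_zero_of_mul hjg
      rw [h0, Units.val_one]
      exact CharTwo.add_self_eq_zero 1
    have a4 : ∀ g ∈ N.filter (fun g => ψ g ≠ 1), w j0 g * (1 + ((ψ g : Fˣ) : F)) ≠ 0 := by
      intro g hg
      rw [Finset.mem_filter] at hg
      refine mul_ne_zero (hw0 g hg.1) ?_
      intro h0
      apply hg.2
      apply Units.ext
      rw [Units.val_one]
      exact (CharTwo.add_eq_zero.1 h0).symm
    have a5 : ∀ χ ∈ T.filter (fun χ => χ * ψ ∈ T), ∃ h ∈ W, ∀ j g,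
        h (g • r j) = ((χ g : Fˣ) : F) * (w j g * (1 + ((ψ g : Fˣ) : F))) := by
      intro χ hχ
      rw [Finset.mem_filter] at hχ
      obtain ⟨h1, h1W, hh1⟩ := hT χ hχ.1
      obtain ⟨h2, h2W, hh2⟩ := hT _ hχ.2
      refine ⟨h1 + h2, W.add_mem h1W h2W, fun j g => ?_⟩
      rw [Pi.add_apply, hh1, hh2, MonoidHom.mul_apply, Units.val_mul]
      ring
    obtain ⟨h, hhW, N', hN', hcard, h1, h2⟩ := ih (k * p) (c ^ 2 / 2)
      (T.filter fun χ => χ * ψ ∈ T) (B ⊓ ψ.ker) (N.filter fun g => ψ g ≠ 1)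
      (fun j g => w j g * (1 + ((ψ g : Fˣ) : F))) (by positivity) (by nlinarith)
      (fun χ hχ χ' hχ' => hET χ (Finset.mem_filter.1 hχ).1 χ' (Finset.mem_filter.1 hχ').1)
      hpop hindex a1 (hne hN) a2 a3 a4 a5
    refine ⟨h, hhW, N', hN', ?_, h1, h2⟩
    calc N'.card * p ^ (d + 1) = (N'.card * p ^ d) * p := by ring
      _ ≤ ((p - 1) ^ d * (N.filter fun g => ψ g ≠ 1).card) * p := Nat.mul_le_mul_right _ hcard
      _ = (p - 1) ^ d * ((N.filter fun g => ψ g ≠ 1).card * p) := by ring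
      _ ≤ (p - 1) ^ d * ((p - 1) * N.card) := Nat.mul_le_mul_left _ hcount
      _ = (p - 1) ^ (d + 1) * N.card := by ring

end window

end Pool.Agent.Helper243Abel
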